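import Pool.Agent.Lib_helper82.T12.A
import Pool.Agent.Lib_helper62.SIE.D

/-!
# T12: both values of an exceptional character at primes of controlled size
-/

set_option autoImplicit false

namespace Pool.Agent.T12

open Finset Complex
open Pool.Agent.GA (SKP wK PW Prm LF wK_nonneg mem_PW)
open Pool.Agent.LK (PQ)

theorem P0_pr : P0 := by
  obtain ⟨c, hc, h⟩ := SIE.siegel 1 one_pos
  refine ⟨c, hc, fun q _ χ β hz => ?_⟩
  have h1 := h q χ hz.pq β hz.zero hz.lt.le
  rwa [Real.rpow_one] at h1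

/-- the truncated sum -/
noncomputable def TT {q : ℕ} (χ : DirichletCharacter ℂ q) (k : ℕ) (M : ℝ) : ℂ :=
  ∑ p ∈ PW M 1, ((Real.log p * wK k M p : ℝ) : ℂ) * χ (p : ZMod q)

theorem b_alg {A B T U s W : ℂ} {x y : ℝ} (hs : s = 1 ∨ s = -1) (hU : U = -s * T)
    (h1 : ‖A - 1‖ ≤ x) (h2 : ‖B + W‖ ≤ x) (h3 : ‖A - T‖ ≤ y) (h4 : ‖B - U‖ ≤ y) :
    ‖1 - s * W‖ ≤ 2 * x + 2 * y := by
  have hs2 : s * s = 1 := by
    rcases hs with rfl | rfl <;> norm_num
  have hsn : ‖s‖ = 1 := by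
    rcases hs with rfl | rfl <;> simp
  have e1 : 1 - s * W = -(A - 1) + (A - T) + s * (B - U) - s * (B + W) := by
    have e2 : s * U = -T := by
      rw [hU]
      calc s * (-s * T) = -(s * s) * T := by ring
        _ = -T := by rw [hs2]; ring
    calc 1 - s * W = 1 - T - (-T) - s * W := by ring
      _ = 1 - T - s * U - s * W := by rw [e2]
      _ = _ := by ring
  rw [e1]
  have n1 : ‖-(A - 1)‖ ≤ x := by rwa [norm_neg]
  have n2 : ‖s * (B - U)‖ ≤ y := by rwa [norm_mul, hsn, one_mul]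
  have n3 : ‖s * (B + W)‖ ≤ x := by rwa [norm_mul, hsn, one_mul]
  calc ‖-(A - 1) + (A - T) + s * (B - U) - s * (B + W)‖
      ≤ ‖-(A - 1) + (A - T) + s * (B - U)‖ + ‖s * (B + W)‖ := norm_sub_le _ _
    _ ≤ ‖-(A - 1) + (A - T)‖ + ‖s * (B - U)‖ + ‖s * (B + W)‖ := by
        gcongr
        exact norm_add_le _ _
    _ ≤ ‖-(A - 1)‖ + ‖A - T‖ + ‖s * (B - U)‖ + ‖s * (B + W)‖ := by
        gcongr
        exact norm_add_le _ _
    _ ≤ x + y + y + x := by gcongr
    _ = _ := by ring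

theorem b_chi_pm {q : ℕ} [NeZero q] {χ : DirichletCharacter ℂ q} (h2 : χ ^ 2 = 1) {p : ℕ}
    (hp : p.Prime) (hq : q < p) : χ (p : ZMod q) = 1 ∨ χ (p : ZMod q) = -1 := by
  have h1 : IsUnit (p : ZMod q) := by
    rw [ZMod.isUnit_iff_coprime]
    exact (Nat.Prime.coprime_iff_not_dvd hp).2 fun h =>
      absurd (Nat.le_of_dvd (NeZero.pos q) h) (by omega)
  exact GA.z1_real h2 h1

/-- the size of the error of the truncation -/
theorem b_tau {C M : ℝ} (hC : 1 ≤ C) (hM : 1 ≤ M) {k : ℕ} (h1 : 100 * M ^ 3 ≤ k)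
    (h2 : (k : ℝ) ≤ 101 * M ^ 3) :
    C * (k / M / Real.sqrt k) * Real.exp (2 * M - 1 ^ 2 * k / (32 * M ^ 2)) ≤
      11 * C * M * Real.exp (-M) := by
  have hk0 : (0 : ℝ) < k := by
    have : (0 : ℝ) < M ^ 3 := by positivity
    linarith
  have hs : 0 < Real.sqrt k := Real.sqrt_pos.2 hk0
  have e1 : k / M / Real.sqrt k = Real.sqrt k / M := by
    have : (k : ℝ) = Real.sqrt k * Real.sqrt k := (Real.mul_self_sqrt hk0.le).symm
    rw [div_div, div_eq_div_iff (by positivity) (by positivity)]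
    nlinarith
  have e2 : Real.sqrt k ≤ 11 * M * M := by
    apply Real.sqrt_le_iff.2
    refine ⟨by positivity, h2.trans ?_⟩
    nlinarith [pow_pos (by linarith : (0 : ℝ) < M) 3]
  have e3 : k / M / Real.sqrt k ≤ 11 * M := by
    rw [e1, div_le_iff₀ (by linarith)]
    exact e2
  have e4 : Real.exp (2 * M - 1 ^ 2 * k / (32 * M ^ 2)) ≤ Real.exp (-M) := by
    apply Real.exp_le_exp.2
    have : 3 * M ≤ 1 ^ 2 * k / (32 * M ^ 2) := by
      rw [le_div_iff₀ (by positivity)]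
      nlinarith [pow_pos (by linarith : (0 : ℝ) < M) 3]
    linarith
  calc C * (k / M / Real.sqrt k) * Real.exp (2 * M - 1 ^ 2 * k / (32 * M ^ 2)) ≤
      C * (11 * M) * Real.exp (-M) := by gcongr
    _ = _ := by ring

/-- `D` is large compared with `M` -/
theorem b_kD {a M : ℝ} (ha : 0 < a) (hM : 82 * a ^ 2 ≤ M) : 41 * M ≤ Real.exp (M / a) := by
  have hM0 : 0 < M := by
    have : 0 < 82 * a ^ 2 := by positivity
    linarith
  have h3 : 0 ≤ M / a := by positivity
  have h1 := Real.quadratic_le_exp_of_nonneg h3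
  have h4 : (M / a) ^ 2 / 2 = M / (2 * a ^ 2) * M := by field_simp
  have h5 : 41 * M ≤ M / (2 * a ^ 2) * M := by
    apply mul_le_mul_of_nonneg_right _ hM0.le
    rw [le_div_iff₀ (by positivity)]
    linarith
  linarith

theorem b_kD2 {M d k : ℝ} (hM : 0 < M) (hd : 20.5 * M ≤ d) (hk : k ≤ 101 * M ^ 3) :
    4 * k ≤ d ^ 2 * M := by
  have h6 : (20.5 * M) ^ 2 ≤ d ^ 2 := pow_le_pow_left₀ (by positivity) hd 2
  have h7 : (20.5 * M) ^ 2 * M ≤ d ^ 2 * M := mul_le_mul_of_nonneg_right h6 hM.le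
  have h8 : (20.5 * M) ^ 2 * M = 420.25 * M ^ 3 := by ring
  have h9 : 0 < M ^ 3 := by positivity
  linarith

/-- the errors -/
theorem b_E2 {C c₁ q M w e : ℝ} (hC : 0 < C) (hc₁ : 0 < c₁) (hq : 0 < q) (hM : 1 ≤ M)
    (hq2 : 16 * C / c₁ ≤ q) (hw : c₁ / q ≤ w) (he : e ≤ 1 / q ^ 2) : C * e ≤ w * M / 16 := by
  have hM0 : 0 < M := by linarith
  have h3 : 16 * C ≤ q * c₁ := (div_le_iff₀ hc₁).1 hq2
  have h2 : C * (1 / q ^ 2) ≤ c₁ / q * M / 16 := by
    have h4 : C * (1 / q ^ 2) = C / q ^ 2 := by ring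
    have h5 : c₁ / q * M / 16 = (c₁ * q * M / 16) / q ^ 2 := by field_simp
    rw [h4, h5]
    apply div_le_div_of_nonneg_right _ (by positivity)
    have h6 : q * c₁ * 1 ≤ q * c₁ * M := mul_le_mul_of_nonneg_left hM (by positivity)
    linarith
  calc C * e ≤ C * (1 / q ^ 2) := mul_le_mul_of_nonneg_left he hC.le
    _ ≤ c₁ / q * M / 16 := h2
    _ ≤ w * M / 16 := by
      apply div_le_div_of_nonneg_right _ (by norm_num)
      exact mul_le_mul_of_nonneg_right hw hM0.le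

theorem b_E3 {C c₁ q M w e : ℝ} (hC : 0 < C) (hc₁ : 0 < c₁) (hq : 0 < q) (hM : 1 ≤ M)
    (hq2 : 176 * C / c₁ ≤ q) (hw : c₁ / q ≤ w) (he : e ≤ 1 / q ^ 2) :
    11 * C * M * e ≤ w * M / 16 := by
  have hM0 : 0 < M := by linarith
  have h3 : 176 * C ≤ q * c₁ := (div_le_iff₀ hc₁).1 hq2
  calc 11 * C * M * e ≤ 11 * C * M * (1 / q ^ 2) := mul_le_mul_of_nonneg_left he (by positivity)
    _ = (11 * C * M) / q ^ 2 := by ring
    _ ≤ (c₁ * q * M / 16) / q ^ 2 := by
        apply div_le_div_of_nonneg_right _ (by positivity)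
        have : 176 * C * M ≤ q * c₁ * M := mul_le_mul_of_nonneg_right h3 hM0.le
        linarith
    _ = c₁ / q * M / 16 := by field_simp
    _ ≤ w * M / 16 := by
        apply div_le_div_of_nonneg_right _ (by norm_num)
        exact mul_le_mul_of_nonneg_right hw hM0.le

theorem P1_pr : P1 := by
  obtain ⟨C, c, A, c₀, hC, hc, hA, hc₀, key⟩ := key
  obtain ⟨C₂, hC₂, htr⟩ := GA.x6_trunc
  obtain ⟨c₁, hc₁, hP0⟩ := P0_pr
  set a : ℝ := max A (16 * C) with ha
  have ha1 : A ≤ a := le_max_left _ _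
  have ha2 : 16 * C ≤ a := le_max_right _ _
  have ha16 : 16 ≤ a := by linarith
  have ha0 : 0 < a := by linarith
  refine ⟨2 * a * (1 + 2 / c), ?_, fun K hK => ?_⟩
  · have : 0 < 2 / c := by positivity
    nlinarith only [this, ha16]
  have hK1 : 2 * a ≤ K := by
    have : 0 < 2 / c := by positivity
    nlinarith only [this, ha16, hK]
  have hK2 : 4 * a ≤ c * (K + 1) := by
    have h1 : 2 * a * (1 + 2 / c) * c = 2 * a * c + 4 * a := by
      field_simp
      ring
    have h2 : 2 * a * (1 + 2 / c) * c ≤ K * c := mul_le_mul_of_nonneg_right hK hc.le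
    have h3 : 0 < a * c := by positivity
    linarith
  have hK0 : 0 < K + 1 := by linarith
  refine ⟨min 1 c₀ / (K + 1), ⌈Real.exp (82 * a ^ 2)⌉₊ + ⌈16 * C / c₁⌉₊ + ⌈176 * C₂ / c₁⌉₊ + 3,
    by positivity, fun q _ χ β hq hz hβ s hs => ?_⟩
  -- sizes
  have hq1 : Real.exp (82 * a ^ 2) ≤ q := (Nat.le_ceil _).trans (by exact_mod_cast (by omega))
  have hq2 : 16 * C / c₁ ≤ q := (Nat.le_ceil _).trans (by exact_mod_cast (by omega))
  have hq3 : 176 * C₂ / c₁ ≤ q := (Nat.le_ceil _).trans (by exact_mod_cast (by omega))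
  have hq0 : (0 : ℝ) < q := by exact_mod_cast NeZero.pos q
  set L : ℝ := Real.log q with hL
  have hL1 : 82 * a ^ 2 ≤ L := (Real.le_log_iff_exp_le hq0).2 hq1
  have hL16 : 16 ≤ L := by nlinarith only [hL1, ha16]
  have hexpL : Real.exp L = q := Real.exp_log hq0
  set M : ℝ := (K + 1) * L with hM
  set w : ℝ := 1 - β with hw
  have hw0 : 0 < w := by have := hz.lt; linarith
  have hML : 2 * a * L ≤ M := by rw [hM]; nlinarith only [hK1, hL16]
  have hM1 : 82 * a ^ 2 ≤ M := by nlinarith only [hML, hL1, ha16, hL16]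
  have hM16 : 16 ≤ M := by nlinarith only [hM1, ha16]
  have hM0 : 0 < M := by linarith
  have hwM : w * M ≤ min 1 c₀ := by
    have h1 : w * L * (K + 1) ≤ min 1 c₀ / (K + 1) * (K + 1) :=
      mul_le_mul_of_nonneg_right hβ hK0.le
    rw [div_mul_cancel₀ _ hK0.ne'] at h1
    calc w * M = w * L * (K + 1) := by rw [hM]; ring
      _ ≤ _ := h1
  have hwM1 : w * M ≤ 1 := hwM.trans (min_le_left _ _)
  have hwMc : w * M ≤ c₀ := hwM.trans (min_le_right _ _)
  have hwM0 : 0 < w * M := by positivity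
  -- `D`
  have hMa : 2 ≤ M / a := by
    rw [le_div_iff₀ ha0]
    nlinarith only [hM1, ha16]
  obtain ⟨D, hD4, hDq, hDM, hDl, hDe⟩ := exD ha0 hMa L (by
    rw [le_div_iff₀ (by positivity)]
    linarith)
  rw [hexpL] at hDq
  have hqD : q ≤ D := by exact_mod_cast hDq
  have hDR : (4 : ℝ) ≤ D := by exact_mod_cast hD4
  have hlD : 0 < Real.log D := Real.log_pos (by linarith)
  have hwD : w * Real.log D ≤ w * M / a := by
    rw [le_div_iff₀ ha0]
    calc w * Real.log D * a = w * (a * Real.log D) := by ring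
      _ ≤ w * M := mul_le_mul_of_nonneg_left hDM hw0.le
  have hβD : 1 - c₀ / Real.log D < β := by
    have h1 : w < c₀ / Real.log D := by
      rw [lt_div_iff₀ hlD]
      have h2 : w * M / a ≤ c₀ / 16 := by
        rw [div_le_div_iff₀ ha0 (by norm_num)]
        nlinarith only [hwMc, ha16, hc₀]
      linarith
    rw [hw] at h1
    linarith
  -- `k`
  obtain ⟨k, hk1, hk2⟩ : ∃ k : ℕ, 100 * M ^ 3 ≤ k ∧ (k : ℝ) ≤ 101 * M ^ 3 := by
    refine ⟨⌈100 * M ^ 3⌉₊, Nat.le_ceil _, ?_⟩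
    have h1 := Nat.ceil_lt_add_one (a := 100 * M ^ 3) (by positivity)
    have h2 : 1 ≤ M ^ 3 := one_le_pow₀ (by linarith)
    linarith
  have hM3 : M ^ 2 ≤ M ^ 3 := pow_le_pow_right₀ (by linarith) (by norm_num)
  have hkM : M ^ 2 ≤ k := by
    have : 0 < M ^ 3 := by positivity
    linarith
  have hk32 : 32 * M ^ 2 ≤ 1 * (k : ℝ) := by
    have : 0 < M ^ 3 := by positivity
    linarith
  have hkD : 4 * (k : ℝ) ≤ (D : ℝ) ^ 2 * M := by
    have h1 := b_kD ha0 hM1
    exact b_kD2 hM0 (by linarith) hk2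
  -- the two sums
  obtain ⟨g1, g2⟩ := key q χ β hz D hD4 hqD hβD k M (by linarith)
    ((mul_le_mul_of_nonneg_right ha1 hlD.le).trans hDM) hkM hkD
  have g3 := htr 1 (1 : DirichletCharacter ℂ 1) k M 1 (by linarith) one_pos le_rfl hk32
  have g4 := htr q χ k M 1 (by linarith) one_pos le_rfl hk32
  have hτ := b_tau hC₂ (by linarith : 1 ≤ M) hk1 hk2
  -- the errors
  have hwq : c₁ / q ≤ w := hP0 q χ β hz
  have hqe : Real.exp (-(2 * L)) = 1 / (q : ℝ) ^ 2 := by
    rw [Real.exp_neg, two_mul, Real.exp_add, hexpL, one_div, sq]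
  have hE1 : C * (w * Real.log D) ≤ w * M / 16 := by
    calc C * (w * Real.log D) ≤ C * (w * M / a) := mul_le_mul_of_nonneg_left hwD (by linarith)
      _ ≤ w * M / 16 := by
        rw [mul_div_assoc', div_le_div_iff₀ ha0 (by norm_num)]
        nlinarith only [ha2, hwM0]
  have hE2 : C * (D : ℝ) ^ (-c) ≤ w * M / 16 := by
    have h1 : (D : ℝ) ^ (-c) ≤ 1 / (q : ℝ) ^ 2 := by
      rw [← hqe, Real.rpow_def_of_pos (by linarith)]
      apply Real.exp_le_exp.2
      have h2 : 2 * L ≤ c * (M / (2 * a)) := by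
        rw [mul_div_assoc', le_div_iff₀ (by positivity), hM]
        nlinarith only [hK2, hL16]
      have h3 : c * (M / (2 * a)) ≤ c * Real.log D := mul_le_mul_of_nonneg_left hDl hc.le
      linarith
    exact b_E2 (by linarith) hc₁ hq0 (by linarith) hq2 hwq h1
  have hE3 : 11 * C₂ * M * Real.exp (-M) ≤ w * M / 16 := by
    have h1 : Real.exp (-M) ≤ 1 / (q : ℝ) ^ 2 := by
      rw [← hqe]
      apply Real.exp_le_exp.2
      have : 2 * L ≤ M := by nlinarith only [hML, ha16, hL16]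
      linarith
    exact b_E3 (by linarith) hc₁ hq0 (by linarith) hq3 hwq h1
  -- the term of the zero
  have hk1' : 1 ≤ k := by
    have : (1 : ℝ) ≤ k := by
      have : 1 ≤ M ^ 3 := one_le_pow₀ (by linarith)
      linarith
    exact_mod_cast this
  set W : ℝ := ((k / M) / (k / M + w)) ^ (k + 1) with hW
  have hW0 : 0 ≤ W := by positivity
  have hW1 : W ≤ (1 + w * M)⁻¹ := W_up hk1' hM0 hw0.le
  have hW2 : w * M / 2 ≤ 1 - W := by
    have h1 : (1 + w * M)⁻¹ ≤ 1 - w * M / 2 := by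
      rw [← one_div, div_le_iff₀ (by linarith)]
      nlinarith only [hwM1, hwM0]
    linarith
  -- the primes of the window
  have hpq : ∀ p ∈ PW M 1, q < p ∧ K * L ≤ Real.log p ∧ Real.log p ≤ (K + 2) * L := by
    intro p hp
    obtain ⟨hp1, hp2⟩ := mem_PW.1 hp
    rw [abs_le] at hp2
    have hp0 : (0 : ℝ) < p := by exact_mod_cast hp1.pos
    have h1 : K * L ≤ Real.log p := by rw [hM] at hp2; nlinarith only [hp2.1, hL16]
    have h2 : Real.log p ≤ (K + 2) * L := by rw [hM] at hp2; nlinarith only [hp2.2, hL16]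
    refine ⟨?_, h1, h2⟩
    have h3 : L < Real.log p := by
      have : 2 * L ≤ K * L := by nlinarith only [hK1, ha16, hL16]
      linarith
    have h4 : (q : ℝ) < p := (Real.log_lt_log_iff hq0 hp0).1 h3
    exact_mod_cast h4
  by_contra hcon
  push Not at hcon
  have hU : ∑ p ∈ PW M 1, ((Real.log p * wK k M p : ℝ) : ℂ) * χ (p : ZMod q) =
      -s * ∑ p ∈ PW M 1, ((Real.log p * wK k M p : ℝ) : ℂ) *
        (1 : DirichletCharacter ℂ 1) (p : ZMod 1) := by
    rw [mul_sum]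
    refine sum_congr rfl fun p hp => ?_
    obtain ⟨h1, h2, h3⟩ := hpq p hp
    have hp1 := (mem_PW.1 hp).1
    have hp0 : (0 : ℝ) < p := by exact_mod_cast hp1.pos
    have h4 : (1 : DirichletCharacter ℂ 1) (p : ZMod 1) = 1 := by
      have : (p : ZMod 1) = 1 := Subsingleton.elim _ _
      rw [this, map_one]
    have h5 : χ (p : ZMod q) = -s := by
      have h6 := hcon p hp1 ?_ ?_
      · rcases b_chi_pm hz.pq.sq hp1 h1 with h7 | h7
        · rcases hs with rfl | rfl
          · exact absurd h7 h6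
          · rw [h7]; ring
        · rcases hs with rfl | rfl
          · exact h7
          · exact absurd h7 h6
      · rw [Real.rpow_def_of_pos hq0, ← Real.exp_log hp0]
        apply Real.exp_le_exp.2
        rw [mul_comm]
        exact h2
      · rw [Real.rpow_def_of_pos hq0, ← Real.exp_log hp0]
        apply Real.exp_le_exp.2
        rw [mul_comm (Real.log (q : ℝ))]
        exact h3
    rw [h4, h5]
    ring
  have hfin := b_alg hs hU g1 g2 (g3.trans hτ) (g4.trans hτ)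
  have hsum : 2 * (C * (w * Real.log D + (D : ℝ) ^ (-c))) + 2 * (11 * C₂ * M * Real.exp (-M)) ≤
      6 * (w * M / 16) := by
    rw [mul_add]
    linarith
  have hlow : w * M / 2 ≤ ‖1 - s * (W : ℂ)‖ := by
    rcases hs with rfl | rfl
    · have h1 : (1 : ℂ) - 1 * (W : ℂ) = ((1 - W : ℝ) : ℂ) := by push_cast; ring
      rw [h1, Complex.norm_real, Real.norm_of_nonneg (by linarith)]
      exact hW2
    · have h1 : (1 : ℂ) - -1 * (W : ℂ) = ((1 + W : ℝ) : ℂ) := by push_cast; ring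
      rw [h1, Complex.norm_real, Real.norm_of_nonneg (by linarith)]
      linarith
  have := hfin.trans hsum
  linarith

end Pool.Agent.T12
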