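import Pool.Agent.Lib_helper82.T12.Defs

/-!
# T12: the laws with separate `ε` (proportion) and `δ` (exponent); consequences with an absolute constant
-/

set_option autoImplicit false

namespace Pool.Agent.T12

open Finset Filter Topology
open Pool.Agent.LK (PQ)

/-- Lhs : exceptional zero, `χ(-N) = 1`, above the threshold. `κ` depends on `ε` only -/
def Lhs (p : PF) : Prop := ∀ ε : ℝ, 0 < ε → ∃ κ : ℝ, 0 < κ ∧ ∀ A δ : ℝ, 1 / 2 < A → 0 < δ →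
  ∃ N₀ : ℕ, ∀ (N : ℕ) [Fact N.Prime], N₀ ≤ N →
  ∀ (q : ℕ) [NeZero q] (χ : DirichletCharacter ℂ q) (β : ℝ), XZ κ N χ β →
  χ (-(N : ZMod q)) = 1 → Real.log N ^ (-(A + 1 / 2) + δ) ≤ 1 - β → 3 / 5 - ε ≤ p A N

/-- Lls : exceptional zero, `χ(-N) = 1`, below the threshold. `κ` depends on `ε` only -/
def Lls (p : PF) : Prop := ∀ ε : ℝ, 0 < ε → ∃ κ : ℝ, 0 < κ ∧ ∀ A δ : ℝ, 1 / 2 < A → 0 < δ →
  ∃ N₀ : ℕ, ∀ (N : ℕ) [Fact N.Prime], N₀ ≤ N →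
  ∀ (q : ℕ) [NeZero q] (χ : DirichletCharacter ℂ q) (β : ℝ), XZ κ N χ β →
  χ (-(N : ZMod q)) = 1 → 1 - β ≤ Real.log N ^ (-(A + 1 / 2) - δ) → |p A N - 1 / 2| ≤ ε

/-- the function has the laws -/
structure Laws (p : PF) : Prop where
  l0 : L0 p
  lm : Lm p
  lhs : Lhs p
  lls : Lls p
  mono : Mono p

theorem Laws.lhi {p : PF} (h : Laws p) : Lhi p := by
  intro ε hε
  obtain ⟨κ, hκ, H⟩ := h.lhs ε hε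
  exact ⟨κ, hκ, fun A hA => H A ε hA hε⟩

theorem Laws.llo {p : PF} (h : Laws p) : Llo p := by
  intro ε hε
  obtain ⟨κ, hκ, H⟩ := h.lls ε hε
  exact ⟨κ, hκ, fun A hA => H A ε hA hε⟩

/-- C1s (uses `L0 p`, `Lm p`, `Lhs p`, `P0`): as `C1`, `ε = 1/20` -/
def C1s (p : PF) : Prop := ∃ c : ℝ, 0 < c ∧ ∀ A δ : ℝ, 1 / 2 < A → 0 < δ →
  ZB Any (A + 1 / 2 - δ) →
  ∃ N₀ : ℕ, ∀ (N : ℕ) [Fact N.Prime], N₀ ≤ N → 1 / 2 + c ≤ p A N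

/-- C3s (uses `L0 p`, `Lm p`, `Lhs p`, `P0`, `PU`, `P3`, `P6`) -/
def C3s (p : PF) : Prop := ∃ c : ℝ, 0 < c ∧ ∀ A δ : ℝ, 1 / 2 < A → 0 < δ →
  ZB (fun χ => χ.Odd) (A + 1 / 2 - δ) → AlmostAll (fun N => ∀ h : N.Prime, 1 / 2 + c ≤ @p A N ⟨h⟩)

/-- C5s (uses `L0 p`, `Lm p`, `Lhs p`, `P0`, `PU`, `C1s p`) -/
def C5s (p : PF) : Prop := ∃ c : ℝ, 0 < c ∧ ∀ A δ : ℝ, 1 / 2 < A → 0 < δ → ∀ Y₀ : ℝ, ∃ Y : ℝ,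
  Y₀ ≤ Y ∧ ∀ (N : ℕ) [Fact N.Prime], Y ≤ N → Real.log N ≤ Real.log Y ^ (A + 1 / 2 - δ) →
  1 / 2 + c ≤ p A N

end Pool.Agent.T12
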