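import Pool.Agent.Lib_helper68.LEV.Fin2
import Pool.Agent.Lib_helper68.LSPV.LVV
import Pool.Agent.Lib_helper68.LSP2.GLW
import Pool.Agent.Lib_helper68.KSLF.FID
import Pool.Agent.Lib_helper68.KSLF.FIC
import Pool.Agent.Lib_helper41.TK.Defs
import Pool.Agent.Lib_helper82.T12.Defs2

/-!
# T12: the laws of the proportion of large central values, from the counts of newforms
-/

set_option autoImplicit false

namespace Pool.Agent.T12

open MeasureTheory ProbabilityTheory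
open Pool.Agent.LK (PQ)
open Pool.Agent.LEV (S2 IsNew co Lh HE)

/-- the share of the even newforms with `P` -/
noncomputable def sh (N : ℕ) [Fact N.Prime] (P : S2 N → Prop) : ℝ :=
  ({f : S2 N | f ∈ HE N ∧ P f}.ncard : ℝ) / ((HE N).ncard : ℝ)

/-- the share of the even newforms with `L(1/2, f) > (log N)^{-A}` -/
noncomputable def rA : PF := fun A N _ => sh N fun f => Real.log N ^ (-A) < (Lh f).re

/-! ## The inputs -/

/-- half of the twisted central values are large -/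
def TH : Prop := ∀ ε : ℝ, 0 < ε → ∃ κ : ℝ, 0 < κ ∧ ∀ δ : ℝ, 0 < δ → ∃ N₀ : ℕ,
  ∀ (N : ℕ) [Fact N.Prime], N₀ ≤ N → ∀ (q : ℕ) [NeZero q] (χ : DirichletCharacter ℂ q),
  PQ χ → (q : ℝ) ≤ (N : ℝ) ^ κ → χ (-(N : ZMod q)) = 1 →
    (N : ℝ) / 24 * (1 / 2 - ε) ≤ ({f : S2 N | (IsNew f ∧ co f N = 1) ∧
      Real.log N ^ (-(1 / 2 + δ)) ≤ |TK.bx χ f|}.ncard : ℝ)

/-- the product with the twisted central value is small -/
def SP : Prop := ∀ ε : ℝ, 0 < ε → ∃ κ : ℝ, 0 < κ ∧ ∀ δ : ℝ, 0 < δ → ∃ N₀ : ℕ,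
  ∀ (N : ℕ) [Fact N.Prime], N₀ ≤ N → ∀ (q : ℕ) [NeZero q] (χ : DirichletCharacter ℂ q) (β : ℝ),
  XZ κ N χ β → χ (-(N : ZMod q)) = 1 →
    ({f : S2 N | (IsNew f ∧ co f N = 1) ∧
      (1 - β) * Real.log N ^ δ < ‖Lh f‖ * |TK.bx χ f|}.ncard : ℝ) ≤ ε * N

/-- the Keating-Snaith law, lower half, for `χ(-N) = -1` -/
def KM : Prop := ∀ ε : ℝ, 0 < ε → ∃ κ : ℝ, 0 < κ ∧ ∀ V : ℝ, ∃ N₀ : ℕ,
  ∀ (N : ℕ) [Fact N.Prime], N₀ ≤ N → ∀ (q : ℕ) [NeZero q] (χ : DirichletCharacter ℂ q) (β : ℝ),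
  XZ κ N χ β → χ (-(N : ZMod q)) = -1 →
    (N : ℝ) / 24 * ((gaussianReal 0 1).real (Set.Ici V) - ε) ≤
      ({f : S2 N | (IsNew f ∧ co f N = 1) ∧ Real.exp (-Real.log (Real.log N) / 2 +
        V * Real.sqrt (Real.log (Real.log N))) ≤ ‖Lh f‖}.ncard : ℝ)

/-- nearly all central values are large, for `χ(-N) = -1` (follows from `KM`) -/
def MN : Prop := ∀ ε : ℝ, 0 < ε → ∃ κ : ℝ, 0 < κ ∧ ∀ A : ℝ, 1 / 2 < A → ∃ N₀ : ℕ,
  ∀ (N : ℕ) [Fact N.Prime], N₀ ≤ N → ∀ (q : ℕ) [NeZero q] (χ : DirichletCharacter ℂ q) (β : ℝ),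
  XZ κ N χ β → χ (-(N : ZMod q)) = -1 →
    (N : ℝ) / 24 * (1 - ε) ≤ ({f : S2 N | (IsNew f ∧ co f N = 1) ∧
      Real.log N ^ (-A) < ‖Lh f‖}.ncard : ℝ)

/-- three fifths above the threshold -/
def HP : Prop := ∀ ε : ℝ, 0 < ε → ∃ κ : ℝ, 0 < κ ∧ ∀ A δ : ℝ, 1 / 2 < A → 0 < δ → ∃ N₀ : ℕ,
  ∀ (N : ℕ) [Fact N.Prime], N₀ ≤ N → ∀ (q : ℕ) [NeZero q] (χ : DirichletCharacter ℂ q) (β : ℝ),
  XZ κ N χ β → χ (-(N : ZMod q)) = 1 → Real.log N ^ (-(A + 1 / 2) + δ) ≤ 1 - β →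
    (N : ℝ) / 24 * (3 / 5 - ε) ≤ ({f : S2 N | (IsNew f ∧ co f N = 1) ∧
      Real.log N ^ (-A) < ‖Lh f‖}.ncard : ℝ)

/-! ## Shares -/

theorem he_pos : ∃ N₀ : ℕ, ∀ (N : ℕ) [Fact N.Prime], N₀ ≤ N → (0 : ℝ) < ((HE N).ncard : ℝ) := by
  obtain ⟨N₀, h⟩ := LEV.even_low' (1 / 48) (by norm_num)
  refine ⟨N₀, fun N _ hN => ?_⟩
  have h1 := h N hN
  have h2 : (0 : ℝ) < N := by exact_mod_cast (Fact.out : N.Prime).pos
  linarith

theorem sh_nonneg (N : ℕ) [Fact N.Prime] (P : S2 N → Prop) : 0 ≤ sh N P := by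
  unfold sh
  positivity

theorem sh_mono {N : ℕ} [Fact N.Prime] {P Q : S2 N → Prop} (h : ∀ f ∈ HE N, P f → Q f) :
    sh N P ≤ sh N Q := by
  unfold sh
  apply div_le_div_of_nonneg_right _ (Nat.cast_nonneg _)
  norm_cast
  apply Set.ncard_le_ncard _ ((LEV.HE_fin N).subset fun f hf => hf.1)
  rintro f ⟨h1, h2⟩
  exact ⟨h1, h f h1 h2⟩

theorem sh_le_one (N : ℕ) [Fact N.Prime] (P : S2 N → Prop) : sh N P ≤ 1 := by
  unfold sh
  apply div_le_one_of_le₀ _ (Nat.cast_nonneg _)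
  norm_cast
  exact Set.ncard_le_ncard (fun f hf => hf.1) (LEV.HE_fin N)

/-- the complement -/
theorem sh_compl {N : ℕ} [Fact N.Prime] (h : (0 : ℝ) < ((HE N).ncard : ℝ)) (P : S2 N → Prop) :
    sh N P + sh N (fun f => ¬ P f) = 1 := by
  unfold sh
  rw [← add_div, div_eq_one_iff_eq h.ne', ← Nat.cast_add, ← Set.ncard_union_eq _
    ((LEV.HE_fin N).subset fun f hf => hf.1) ((LEV.HE_fin N).subset fun f hf => hf.1)]
  · congr 2
    ext f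
    simp only [Set.mem_union, Set.mem_ofPred_eq]
    tauto
  · rw [Set.disjoint_left]
    intro f h1 h2
    exact h2.2 h1.2

theorem sh_or {N : ℕ} [Fact N.Prime] (P Q : S2 N → Prop) :
    sh N (fun f => P f ∨ Q f) ≤ sh N P + sh N Q := by
  unfold sh
  rw [← add_div]
  apply div_le_div_of_nonneg_right _ (Nat.cast_nonneg _)
  rw [← Nat.cast_add, Nat.cast_le]
  refine le_trans (Set.ncard_le_ncard ?_ (((LEV.HE_fin N).subset fun f hf => hf.1).union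
    ((LEV.HE_fin N).subset fun f hf => hf.1))) (Set.ncard_union_le _ _)
  rintro f ⟨h1, h2 | h2⟩
  · exact Or.inl ⟨h1, h2⟩
  · exact Or.inr ⟨h1, h2⟩

theorem sh_set (N : ℕ) [Fact N.Prime] (P : S2 N → Prop) :
    {f : S2 N | (IsNew f ∧ co f N = 1) ∧ P f} = {f : S2 N | f ∈ HE N ∧ P f} := by
  rw [LEV.HE_eq]
  rfl

/-- from numbers to shares, lower bounds -/
theorem sh_low {w : ℝ} (hw1 : w ≤ 1) {ε : ℝ} (hε : 0 < ε) : ∃ (e : ℝ) (N₀ : ℕ),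
    0 < e ∧ ∀ (N : ℕ) [Fact N.Prime], N₀ ≤ N → ∀ P : S2 N → Prop,
      (N : ℝ) / 24 * (w - e) ≤ ({f : S2 N | (IsNew f ∧ co f N = 1) ∧ P f}.ncard : ℝ) →
      w - ε ≤ sh N P := by
  obtain ⟨e, he0, he1, he2⟩ : ∃ e : ℝ, 0 < e ∧ e ≤ ε / 100 ∧ e ≤ 1 / 100 :=
    ⟨min ε 1 / 100, by positivity, by have := min_le_left ε 1; linarith,
      by have := min_le_right ε 1; linarith⟩
  obtain ⟨N₂, h2⟩ := LEV.even_up he0
  obtain ⟨N₃, h3⟩ := he_pos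
  refine ⟨e, N₂ + N₃ + 3, he0, fun N _ hN P h4 => ?_⟩
  have h5 := h2 N (by omega)
  have h6 := h3 N (by omega)
  have hN0 : (0 : ℝ) < N := by exact_mod_cast (Fact.out : N.Prime).pos
  unfold sh
  rw [le_div_iff₀ h6, ← sh_set]
  by_cases h7 : w - ε ≤ 0
  · have h8 : (w - ε) * ((HE N).ncard : ℝ) ≤ 0 :=
      mul_nonpos_of_nonpos_of_nonneg h7 h6.le
    exact h8.trans (Nat.cast_nonneg _)
  · push Not at h7
    have h8 : (w - ε) * ((HE N).ncard : ℝ) ≤ (w - ε) * ((1 / 24 + e) * N) :=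
      mul_le_mul_of_nonneg_left h5 h7.le
    have h9 : (w - ε) * (1 / 24 + e) ≤ 1 / 24 * (w - e) := by
      nlinarith only [h7, hw1, he1, he0, hε]
    have h10 : (w - ε) * ((1 / 24 + e) * N) ≤ (N : ℝ) / 24 * (w - e) := by
      calc _ = ((w - ε) * (1 / 24 + e)) * N := by ring
        _ ≤ (1 / 24 * (w - e)) * N := mul_le_mul_of_nonneg_right h9 hN0.le
        _ = _ := by ring
    linarith

/-- from numbers to shares, upper bounds -/
theorem sh_up {ε : ℝ} (hε : 0 < ε) : ∃ (e : ℝ) (N₀ : ℕ),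
    0 < e ∧ ∀ (N : ℕ) [Fact N.Prime], N₀ ≤ N → ∀ P : S2 N → Prop,
      ({f : S2 N | (IsNew f ∧ co f N = 1) ∧ P f}.ncard : ℝ) ≤ e * N → sh N P ≤ ε := by
  obtain ⟨N₂, h2⟩ := LEV.even_low' (1 / 48) (by norm_num)
  obtain ⟨N₃, h3⟩ := he_pos
  refine ⟨ε / 48, N₂ + N₃ + 3, by positivity, fun N _ hN P h4 => ?_⟩
  have h5 := h2 N (by omega)
  have h6 := h3 N (by omega)
  have hN0 : (0 : ℝ) < N := by exact_mod_cast (Fact.out : N.Prime).pos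
  unfold sh
  rw [div_le_iff₀ h6, ← sh_set]
  have h7 : ε * ((1 / 24 - 1 / 48) * N) ≤ ε * ((HE N).ncard : ℝ) :=
    mul_le_mul_of_nonneg_left h5 hε.le
  have h8 : ε * ((1 / 24 - 1 / 48) * N) = ε / 48 * N := by ring
  linarith

theorem lh_norm {N : ℕ} [Fact N.Prime] (hN : 3 ≤ N) {f : S2 N} (hf : f ∈ HE N) :
    ‖Lh f‖ = (Lh f).re := by
  rw [LEV.HE_eq] at hf
  exact LSP.Lh_norm hN hf.1 hf.2

theorem exp_thr {N : ℕ} (hN : 3 ≤ N) (V : ℝ) :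
    Real.log N ^ (-(1 / 2) : ℝ) * Real.exp (V * Real.sqrt (Real.log (Real.log N))) =
      Real.exp (-Real.log (Real.log N) / 2 + V * Real.sqrt (Real.log (Real.log N))) := by
  have hlog : 0 < Real.log N := Real.log_pos (by exact_mod_cast (by omega : 1 < N))
  rw [Real.exp_add, Real.rpow_def_of_pos hlog]
  congr 2
  ring

/-! ## Known facts in the form needed -/

theorem rA_nonneg (A : ℝ) (N : ℕ) [Fact N.Prime] : 0 ≤ rA A N := sh_nonneg _ _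

theorem rA_le_one (A : ℝ) (N : ℕ) [Fact N.Prime] : rA A N ≤ 1 := sh_le_one _ _

theorem rA_mono : Mono rA := by
  intro A A' N _ hN hA
  apply sh_mono
  intro f _ h
  refine lt_of_le_of_lt ?_ h
  apply Real.rpow_le_rpow_of_exponent_le _ (by linarith)
  rw [Real.le_log_iff_exp_le (by exact_mod_cast (by omega : 0 < N))]
  have h5 : Real.exp 1 < 3 := Real.exp_one_lt_three
  have h6 : (3 : ℝ) ≤ N := by exact_mod_cast hN
  linarith

theorem rA_low (A : ℝ) (hA : A < 1 / 2) (ε : ℝ) (hε : 0 < ε) : ∃ N₀ : ℕ,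
    ∀ (N : ℕ) [Fact N.Prime], N₀ ≤ N → rA A N ≤ ε := by
  obtain ⟨N₀, h⟩ := LEV.fin_small hA hε
  obtain ⟨N₁, h1⟩ := he_pos
  refine ⟨N₀ + N₁, fun N _ hN => ?_⟩
  have h2 := h N (by omega)
  have h3 := h1 N (by omega)
  unfold rA sh
  rw [div_le_iff₀ h3]
  exact h2

/-- the upper half of the Keating-Snaith law -/
theorem ks_up (V : ℝ) {ε : ℝ} (hε : 0 < ε) : ∃ N₀ : ℕ, ∀ (N : ℕ) [Fact N.Prime], N₀ ≤ N →
    sh N (fun f => Real.log N ^ (-(1 / 2) : ℝ) *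
      Real.exp (V * Real.sqrt (Real.log (Real.log N))) ≤ (Lh f).re) ≤
        (gaussianReal 0 1).real (Set.Ici V) + ε := by
  obtain ⟨N₀, h⟩ := LEV.fin_clt V hε
  obtain ⟨N₁, h1⟩ := he_pos
  refine ⟨N₀ + N₁ + 3, fun N _ hN => ?_⟩
  have h2 := h N (by omega)
  have h3 := h1 N (by omega)
  unfold sh
  rw [div_le_iff₀ h3]
  simp only [exp_thr (show 3 ≤ N by omega)]
  exact h2

/-- from the count of the large central values to the share -/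
theorem sh_thr {N : ℕ} [Fact N.Prime] (hN : 3 ≤ N) (V : ℝ) :
    sh N (fun f => Real.log N ^ (-(1 / 2) : ℝ) *
      Real.exp (V * Real.sqrt (Real.log (Real.log N))) ≤ (Lh f).re) =
    sh N (fun f => Real.exp (-Real.log (Real.log N) / 2 +
      V * Real.sqrt (Real.log (Real.log N))) ≤ ‖Lh f‖) := by
  apply le_antisymm
  · apply sh_mono
    intro f hf h
    rw [lh_norm hN hf, ← exp_thr hN]
    exact h
  · apply sh_mono
    intro f hf h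
    rw [lh_norm hN hf, ← exp_thr hN] at h
    exact h

theorem rA_norm {N : ℕ} [Fact N.Prime] (hN : 3 ≤ N) (A : ℝ) :
    rA A N = sh N (fun f => Real.log N ^ (-A) < ‖Lh f‖) := by
  apply le_antisymm
  · apply sh_mono
    intro f hf h
    rw [lh_norm hN hf]
    exact h
  · apply sh_mono
    intro f hf h
    rw [lh_norm hN hf] at h
    exact h

theorem rA_thr (V : ℝ) {A : ℝ} (hA : 1 / 2 < A) : ∃ N₀ : ℕ, ∀ (N : ℕ) [Fact N.Prime], N₀ ≤ N →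
    sh N (fun f => Real.log N ^ (-(1 / 2) : ℝ) *
      Real.exp (V * Real.sqrt (Real.log (Real.log N))) ≤ (Lh f).re) ≤ rA A N := by
  obtain ⟨N₀, h⟩ := LSP.thr_low V hA
  exact ⟨N₀, fun N _ hN => sh_mono fun f _ h1 => (h N hN).trans_le h1⟩

/-- half of the lower half of the Keating-Snaith law -/
theorem ks_half (V : ℝ) {ε : ℝ} (hε : 0 < ε) : ∃ N₀ : ℕ, ∀ (N : ℕ) [Fact N.Prime], N₀ ≤ N →
    1 / 2 * (gaussianReal 0 1).real (Set.Ici V) - ε ≤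
      sh N (fun f => Real.log N ^ (-(1 / 2) : ℝ) *
        Real.exp (V * Real.sqrt (Real.log (Real.log N))) ≤ (Lh f).re) := by
  have hg1 : (gaussianReal 0 1).real (Set.Ici V) ≤ 1 := measureReal_le_one
  obtain ⟨e, N₁, he, h1⟩ := sh_low (w := 1 / 2 * (gaussianReal 0 1).real (Set.Ici V))
    (by linarith) hε
  obtain ⟨N₂, h2⟩ := KSL.final_nat V he
  refine ⟨N₁ + N₂ + 3, fun N _ hN => ?_⟩
  rw [sh_thr (by omega)]
  exact h1 N (by omega) _ (h2 N (by omega))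

theorem rA_half (A : ℝ) (hA : 1 / 2 < A) (ε : ℝ) (hε : 0 < ε) : ∃ N₀ : ℕ,
    ∀ (N : ℕ) [Fact N.Prime], N₀ ≤ N → 1 / 2 - ε ≤ rA A N := by
  obtain ⟨V, hV⟩ := LSP.gauss_low hε
  obtain ⟨N₁, h1⟩ := ks_half V (half_pos hε)
  obtain ⟨N₃, h3⟩ := rA_thr V hA
  refine ⟨N₁ + N₃, fun N _ hN => ?_⟩
  have h4 := h1 N (by omega)
  have h5 := h3 N (by omega)
  linarith

/-- no exceptional zero -/
theorem free_of {κ : ℝ} {N : ℕ} (h : ∀ (q : ℕ) [NeZero q] (χ : DirichletCharacter ℂ q) (β : ℝ),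
    ¬ XZ κ N χ β) : GA.Free (κ / Real.log N) ⌊(N : ℝ) ^ κ⌋₊ := by
  intro q hq χ hχ h2 β hβ
  rw [Finset.mem_Icc] at hq
  have hq0 : q ≠ 0 := by omega
  have : NeZero q := ⟨hq0⟩
  have h5 : χ.IsPrimitive ∧ χ ≠ 1 := by
    have h6 := hχ
    unfold GA.Prm at h6
    simp only [Finset.mem_filter] at h6
    exact h6.2
  obtain ⟨h3, h4⟩ := h5
  unfold GA.LF at hβ
  rw [dif_neg hq0] at hβ
  by_contra hlt
  push Not at hlt
  refine h q χ β ⟨⟨⟨h3, h2, h4⟩, ?_, hβ⟩, (Nat.le_floor_iff' hq0).1 hq.2, hlt⟩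
  by_contra h6
  push Not at h6
  exact DirichletCharacter.LFunction_ne_zero_of_one_le_re χ (Or.inl h4)
    (by rw [Complex.ofReal_re]; exact h6) hβ

theorem rA_l0 : L0 rA := by
  intro κ hκ
  obtain ⟨c, hc0, hc1, h⟩ := LSP.dist_free hκ hκ
  refine ⟨c / 2, by positivity, fun A hA => ?_⟩
  obtain ⟨V, hV⟩ := LSP.gauss_low (ε := c / 4) (by positivity)
  have hg0 : 0 ≤ (gaussianReal 0 1).real (Set.Ici V) := measureReal_nonneg
  have hg1 : (gaussianReal 0 1).real (Set.Ici V) ≤ 1 := measureReal_le_one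
  obtain ⟨e, N₁, he, h1⟩ := sh_low (w := (1 / 2 + c) * (gaussianReal 0 1).real (Set.Ici V))
    (by nlinarith only [hg0, hg1, hc1, hc0]) (show (0 : ℝ) < c / 4 by positivity)
  obtain ⟨N₂, h2⟩ := h V e he
  obtain ⟨N₃, h3⟩ := rA_thr V hA
  refine ⟨N₁ + N₂ + N₃ + 3, fun N _ hN hf => ?_⟩
  have h4 := h1 N (by omega) _ (h2 N (by omega) (free_of hf))
  have h5 := h3 N (by omega)
  rw [sh_thr (by omega)] at h5
  have h6 : (1 / 2 + c) * (1 - c / 4) ≤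
      (1 / 2 + c) * (gaussianReal 0 1).real (Set.Ici V) :=
    mul_le_mul_of_nonneg_left hV (by positivity)
  nlinarith only [h4, h5, h6, hc0, hc1]

/-! ## The laws from the inputs -/

/-- the lower half of the Keating-Snaith law -/
theorem ks_low (h : KM) : ∀ ε : ℝ, 0 < ε → ∃ κ : ℝ, 0 < κ ∧ ∀ V : ℝ, ∃ N₀ : ℕ,
    ∀ (N : ℕ) [Fact N.Prime], N₀ ≤ N →
    ∀ (q : ℕ) [NeZero q] (χ : DirichletCharacter ℂ q) (β : ℝ), XZ κ N χ β →
    χ (-(N : ZMod q)) = -1 → (gaussianReal 0 1).real (Set.Ici V) - ε ≤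
      sh N (fun f => Real.log N ^ (-(1 / 2) : ℝ) *
        Real.exp (V * Real.sqrt (Real.log (Real.log N))) ≤ (Lh f).re) := by
  intro ε hε
  obtain ⟨κ, hκ, h⟩ := h (ε / 2) (by positivity)
  refine ⟨κ, hκ, fun V => ?_⟩
  have hg1 : (gaussianReal 0 1).real (Set.Ici V) ≤ 1 := measureReal_le_one
  obtain ⟨e, N₁, he, h1⟩ := sh_low (w := (gaussianReal 0 1).real (Set.Ici V) - ε / 2)
    (by linarith) (half_pos hε)
  obtain ⟨N₂, h2⟩ := h V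
  refine ⟨N₁ + N₂ + 3, fun N _ hN q _ χ β hx hs => ?_⟩
  have hN0 : (0 : ℝ) ≤ N := Nat.cast_nonneg _
  have h4 := h1 N (by omega) _ (le_trans (by
    apply mul_le_mul_of_nonneg_left _ (by positivity)
    linarith) (h2 N (by omega) q χ β hx hs))
  rw [sh_thr (by omega)]
  linarith

theorem rA_lm (h : KM) : Lm rA := by
  intro ε hε
  obtain ⟨κ, hκ, h⟩ := ks_low h (ε / 2) (by positivity)
  refine ⟨κ, hκ, fun A hA => ?_⟩
  obtain ⟨V, hV⟩ := LSP.gauss_low (ε := ε / 2) (by positivity)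
  obtain ⟨N₁, h1⟩ := h V
  obtain ⟨N₂, h2⟩ := rA_thr V hA
  refine ⟨N₁ + N₂, fun N _ hN q _ χ β hx hs => ?_⟩
  have h3 := h1 N (by omega) q χ β hx hs
  have h4 := h2 N (by omega)
  linarith

/-- the weak form is enough for `Lm` -/
theorem rA_lm' (h : MN) : Lm rA := by
  intro ε hε
  obtain ⟨e, N₁, he, h1⟩ := sh_low (w := 1) le_rfl hε
  obtain ⟨κ, hκ, h⟩ := h e he
  refine ⟨κ, hκ, fun A hA => ?_⟩
  obtain ⟨N₂, h2⟩ := h A hA
  refine ⟨N₁ + N₂ + 3, fun N _ hN q _ χ β hx hs => ?_⟩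
  rw [rA_norm (by omega)]
  exact h1 N (by omega) _ (h2 N (by omega) q χ β hx hs)

theorem rA_lhs (h : HP) : Lhs rA := by
  intro ε hε
  obtain ⟨e, N₁, he, h1⟩ := sh_low (w := 3 / 5) (by norm_num) hε
  obtain ⟨κ, hκ, h⟩ := h e he
  refine ⟨κ, hκ, fun A δ hA hδ => ?_⟩
  obtain ⟨N₂, h2⟩ := h A δ hA hδ
  refine ⟨N₁ + N₂ + 3, fun N _ hN q _ χ β hx hs hb => ?_⟩
  rw [rA_norm (by omega)]
  exact h1 N (by omega) _ (h2 N (by omega) q χ β hx hs hb)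

theorem rA_lls (h1 : TH) (h2 : SP) : Lls rA := by
  intro ε hε
  obtain ⟨e₁, N₁, he₁, h3⟩ := sh_low (w := 1 / 2) (by norm_num) (show (0 : ℝ) < ε / 2 by positivity)
  obtain ⟨e₂, N₂, he₂, h4⟩ := sh_up (show (0 : ℝ) < ε / 2 by positivity)
  obtain ⟨κ₁, hκ₁, h1⟩ := h1 e₁ he₁
  obtain ⟨κ₂, hκ₂, h2⟩ := h2 e₂ he₂
  refine ⟨min κ₁ κ₂, lt_min hκ₁ hκ₂, fun A δ hA hδ => ?_⟩
  obtain ⟨N₃, h1⟩ := h1 (δ / 2) (by positivity)
  obtain ⟨N₄, h2⟩ := h2 (δ / 2) (by positivity)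
  obtain ⟨N₅, h5⟩ := rA_half A hA ε hε
  obtain ⟨N₆, h6⟩ := he_pos
  refine ⟨N₁ + N₂ + N₃ + N₄ + N₅ + N₆ + 3, fun N _ hN q _ χ β hx hs hb => ?_⟩
  have hN3 : (3 : ℝ) ≤ N := by exact_mod_cast (by omega : 3 ≤ N)
  have hlog : 0 < Real.log N := Real.log_pos (by linarith)
  have hx2 : XZ κ₂ N χ β := by
    refine ⟨hx.rz, hx.hq.trans (Real.rpow_le_rpow_of_exponent_le (by linarith)
      (min_le_right _ _)), lt_of_le_of_lt ?_ hx.hβ⟩
    have h7 : min κ₁ κ₂ / Real.log N ≤ κ₂ / Real.log N :=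
      div_le_div_of_nonneg_right (min_le_right _ _) hlog.le
    linarith
  have h7 := h3 N (by omega) _ (h1 N (by omega) q χ hx.rz.pq (hx.hq.trans
    (Real.rpow_le_rpow_of_exponent_le (by linarith) (min_le_left _ _))) hs)
  have h8 := h4 N (by omega) _ (h2 N (by omega) q χ β hx2 hs)
  have h9 := h5 N (by omega)
  have h10 := h6 N (by omega)
  have h11 := sh_compl h10 (fun f => Real.log N ^ (-A) < ‖Lh f‖)
  rw [← rA_norm (by omega)] at h11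
  have h12 : sh N (fun f => Real.log N ^ (-(1 / 2 + δ / 2)) ≤ |TK.bx χ f|) ≤
      sh N (fun f => ¬ Real.log N ^ (-A) < ‖Lh f‖) +
      sh N (fun f => (1 - β) * Real.log N ^ (δ / 2) < ‖Lh f‖ * |TK.bx χ f|) := by
    refine le_trans (sh_mono fun f hf h13 => ?_) (sh_or _ _)
    by_cases h14 : Real.log N ^ (-A) < ‖Lh f‖
    · right
      have h15 : 0 < Real.log N ^ (-(1 / 2 + δ / 2)) := Real.rpow_pos_of_pos hlog _
      have h16 : 0 < Real.log N ^ (-A) := Real.rpow_pos_of_pos hlog _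
      calc (1 - β) * Real.log N ^ (δ / 2)
          ≤ Real.log N ^ (-(A + 1 / 2) - δ) * Real.log N ^ (δ / 2) :=
            mul_le_mul_of_nonneg_right hb (Real.rpow_nonneg hlog.le _)
        _ = Real.log N ^ (-A) * Real.log N ^ (-(1 / 2 + δ / 2)) := by
            rw [← Real.rpow_add hlog, ← Real.rpow_add hlog]
            congr 1
            ring
        _ < ‖Lh f‖ * Real.log N ^ (-(1 / 2 + δ / 2)) := mul_lt_mul_of_pos_right h14 h15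
        _ ≤ ‖Lh f‖ * |TK.bx χ f| := mul_le_mul_of_nonneg_left h13 (norm_nonneg _)
    · exact Or.inl h14
  rw [abs_le]
  constructor
  · linarith
  · linarith

theorem laws (h1 : TH) (h2 : SP) (h3 : KM) (h4 : HP) : Laws rA :=
  ⟨rA_l0, rA_lm h3, rA_lhs h4, rA_lls h1 h2, rA_mono⟩

theorem laws' (h1 : TH) (h2 : SP) (h3 : MN) (h4 : HP) : Laws rA :=
  ⟨rA_l0, rA_lm' h3, rA_lhs h4, rA_lls h1 h2, rA_mono⟩

end Pool.Agent.T12
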