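import Pool.Agent.Lib_helper31.LK.DefsP

/-!
# T12 (MP_cc4f83_nt): the laws of a level and their consequences. Definitions and statements.

`p A N` is the proportion of the `f ∈ H₂⁺(N)` with `L(1/2, f) > (log N)^{-A}` (here: any function).

The laws `L0, Lm, Lhi, Llo` are proved elsewhere (helper41); here the analytic statements `P0 - P5` on exceptional zeros
(helper82) and the consequences `C1 - C8`, which use nothing but the laws and `P0 - P5`.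
A block proves `theorem <name>_pr (hypotheses = the Props of the column uses, in this order) : <name>`.
-/

set_option autoImplicit false

namespace Pool.Agent.T12

open Finset Filter Topology
open Pool.Agent.LK (PQ)

/-! ## Exceptional zeros -/

/-- `β < 1` is a real zero of `L(s, χ)`, `χ` real primitive and not trivial -/
structure RZ {q : ℕ} [NeZero q] (χ : DirichletCharacter ℂ q) (β : ℝ) : Prop where
  pq : PQ χ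
  lt : β < 1
  zero : DirichletCharacter.LFunction χ (β : ℂ) = 0

/-- the character `χ` modulo `q` has an exceptional zero `β` for the level `N` -/
structure XZ (κ : ℝ) (N : ℕ) {q : ℕ} [NeZero q] (χ : DirichletCharacter ℂ q) (β : ℝ) : Prop where
  rz : RZ χ β
  hq : (q : ℝ) ≤ (N : ℝ) ^ κ
  hβ : 1 - κ / Real.log N < β

/-! ## The laws of one level -/

/-- a function of `A` and of a prime `N` -/
abbrev PF := ℝ → (N : ℕ) → [Fact N.Prime] → ℝ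

/-- L0 : no exceptional zero -/
def L0 (p : PF) : Prop := ∀ κ : ℝ, 0 < κ → ∃ c : ℝ, 0 < c ∧ ∀ A : ℝ, 1 / 2 < A →
  ∃ N₀ : ℕ, ∀ (N : ℕ) [Fact N.Prime], N₀ ≤ N →
  (∀ (q : ℕ) [NeZero q] (χ : DirichletCharacter ℂ q) (β : ℝ), ¬ XZ κ N χ β) → 1 / 2 + c ≤ p A N

/-- Lm : exceptional zero, `χ(-N) = -1` -/
def Lm (p : PF) : Prop := ∀ ε : ℝ, 0 < ε → ∃ κ : ℝ, 0 < κ ∧ ∀ A : ℝ, 1 / 2 < A →
  ∃ N₀ : ℕ, ∀ (N : ℕ) [Fact N.Prime], N₀ ≤ N →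
  ∀ (q : ℕ) [NeZero q] (χ : DirichletCharacter ℂ q) (β : ℝ), XZ κ N χ β →
  χ (-(N : ZMod q)) = -1 → 1 - ε ≤ p A N

/-- Lhi : exceptional zero, `χ(-N) = 1`, above the threshold -/
def Lhi (p : PF) : Prop := ∀ ε : ℝ, 0 < ε → ∃ κ : ℝ, 0 < κ ∧ ∀ A : ℝ, 1 / 2 < A →
  ∃ N₀ : ℕ, ∀ (N : ℕ) [Fact N.Prime], N₀ ≤ N →
  ∀ (q : ℕ) [NeZero q] (χ : DirichletCharacter ℂ q) (β : ℝ), XZ κ N χ β →
  χ (-(N : ZMod q)) = 1 → Real.log N ^ (-(A + 1 / 2) + ε) ≤ 1 - β → 3 / 5 - ε ≤ p A N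

/-- Llo : exceptional zero, `χ(-N) = 1`, below the threshold -/
def Llo (p : PF) : Prop := ∀ ε : ℝ, 0 < ε → ∃ κ : ℝ, 0 < κ ∧ ∀ A : ℝ, 1 / 2 < A →
  ∃ N₀ : ℕ, ∀ (N : ℕ) [Fact N.Prime], N₀ ≤ N →
  ∀ (q : ℕ) [NeZero q] (χ : DirichletCharacter ℂ q) (β : ℝ), XZ κ N χ β →
  χ (-(N : ZMod q)) = 1 → 1 - β ≤ Real.log N ^ (-(A + 1 / 2) - ε) → |p A N - 1 / 2| ≤ ε

/-! ## Analytic statements -/

open Classical in
/-- the number of primes `n ≤ X` with `P n` -/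
noncomputable def cp (P : ℕ → Prop) (X : ℕ) : ℝ :=
  (((Finset.range (X + 1)).filter (fun n => n.Prime ∧ P n)).card : ℝ)

/-- the number of primes `n ≤ X` -/
noncomputable def pix (X : ℕ) : ℝ := cp (fun _ => True) X

/-- the primes `p` with `|log p - M| ≤ 1` (the same as `GA.PW M 1`) -/
noncomputable def PM (M : ℝ) : Finset ℕ :=
  (Finset.range (⌊Real.exp (M + 1)⌋₊ + 1)).filter (fun p => p.Prime ∧ |Real.log p - M| ≤ 1)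

/-- P0 : (weak Siegel) -/
def P0 : Prop := ∃ c : ℝ, 0 < c ∧ ∀ (q : ℕ) [NeZero q] (χ : DirichletCharacter ℂ q) (β : ℝ),
  RZ χ β → c / q ≤ 1 - β

/-- PU : at most one exceptional character. From `SZ.Z1` -/
def PU : Prop := ∃ c : ℝ, 0 < c ∧ ∀ D : ℕ, 2 ≤ D →
  ∀ (q : ℕ) [NeZero q] (χ : DirichletCharacter ℂ q) (β : ℝ) (q' : ℕ) [NeZero q']
    (χ' : DirichletCharacter ℂ q') (β' : ℝ), q ≤ D → q' ≤ D → RZ χ β → RZ χ' β' →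
  1 - c / Real.log D < β → 1 - c / Real.log D < β' →
  q = q' ∧ (∀ n : ℕ, χ (n : ZMod q) = χ' (n : ZMod q')) ∧ β = β'

/-- P1 : an exceptional character takes both values at primes of controlled size -/
def P1 : Prop := ∃ K₀ : ℝ, 1 ≤ K₀ ∧ ∀ K : ℝ, K₀ ≤ K → ∃ (c : ℝ) (q₀ : ℕ), 0 < c ∧
  ∀ (q : ℕ) [NeZero q] (χ : DirichletCharacter ℂ q) (β : ℝ), q₀ ≤ q → RZ χ β →
  (1 - β) * Real.log q ≤ c → ∀ s : ℂ, s = 1 ∨ s = -1 →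
  ∃ N : ℕ, N.Prime ∧ (q : ℝ) ^ K ≤ N ∧ (N : ℝ) ≤ (q : ℝ) ^ (K + 2) ∧ χ (N : ZMod q) = s

/-- P2 : the primes with `χ(p) = 1` in one window -/
def P2 : Prop := ∃ C c K₀ : ℝ, 1 ≤ C ∧ 0 < c ∧ 1 ≤ K₀ ∧ ∀ (q : ℕ) [NeZero q]
  (χ : DirichletCharacter ℂ q) (β : ℝ), RZ χ β → ∀ M : ℝ, K₀ ≤ M → K₀ * Real.log q ≤ M →
  ∑ p ∈ PM M, (1 + (χ (p : ZMod q)).re) * (Real.log p / p) ≤
    C * ((1 - β) * M + Real.exp (-(c * M)))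

/-- P3 : the number of primes `≤ X` with `χ(p) = 1` (uses `P2`) -/
def P3 : Prop := ∃ K : ℝ, 1 ≤ K ∧ ∀ η : ℝ, 0 < η → ∃ (δ : ℝ) (X₀ : ℕ), 0 < δ ∧
  ∀ (q : ℕ) [NeZero q] (χ : DirichletCharacter ℂ q) (β : ℝ), RZ χ β → ∀ X : ℕ, X₀ ≤ X →
  K * Real.log q ≤ Real.log X → (1 - β) * Real.log X ≤ δ →
  cp (fun n => χ (n : ZMod q) ≠ -1) X ≤ η * pix X

/-- P4 : zeros and `L(1, χ)`, upper bound -/
def P4 : Prop := ∃ C : ℝ, 1 ≤ C ∧ ∃ c : ℝ, 0 < c ∧ ∀ (q : ℕ) [NeZero q]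
  (χ : DirichletCharacter ℂ q) (β : ℝ), RZ χ β → (1 - β) * Real.log q ≤ c →
  (1 - β) / 8 ≤ ‖DirichletCharacter.LFunction χ 1‖ ∧
  ‖DirichletCharacter.LFunction χ 1‖ ≤ C * (1 - β) * Real.log q ^ 2

/-- P5 : `L(1, χ)` without an exceptional zero -/
def P5 : Prop := ∀ c : ℝ, 0 < c → ∃ c' : ℝ, 0 < c' ∧ ∀ (q : ℕ) [NeZero q]
  (χ : DirichletCharacter ℂ q), PQ χ → (∀ β : ℝ, RZ χ β → c < (1 - β) * Real.log q) →
  c' / Real.log q ≤ ‖DirichletCharacter.LFunction χ 1‖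

/-- P6 : Chebyshev -/
def P6 : Prop := ∃ (c : ℝ) (X₀ : ℕ), 0 < c ∧ ∀ X : ℕ, X₀ ≤ X → c * X / Real.log X ≤ pix X

/-! ## Consequences -/

/-- the distance of a zero to `1` is at least `(log q)^{-B}`, `q` large, for the characters with `P` -/
def ZB (P : ∀ {q : ℕ}, DirichletCharacter ℂ q → Prop) (B : ℝ) : Prop :=
  ∃ q₀ : ℕ, ∀ (q : ℕ) [NeZero q], q₀ ≤ q → ∀ (χ : DirichletCharacter ℂ q) (β : ℝ), RZ χ β → P χ →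
  Real.log q ^ (-B) ≤ 1 - β

/-- `L(1, χ) ≥ c (log q)^{-B}`, for the characters with `P` -/
def LB (P : ∀ {q : ℕ}, DirichletCharacter ℂ q → Prop) (B : ℝ) : Prop :=
  ∃ c : ℝ, 0 < c ∧ ∀ (q : ℕ) [NeZero q] (χ : DirichletCharacter ℂ q), PQ χ → P χ →
  c * Real.log q ^ (-B) ≤ ‖DirichletCharacter.LFunction χ 1‖

/-- the set of primes with `P` has relative density `1` -/
def AlmostAll (P : ℕ → Prop) : Prop := ∀ η : ℝ, 0 < η → ∃ X₀ : ℕ, ∀ X : ℕ, X₀ ≤ X →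
  cp (fun n => ¬ P n) X ≤ η * pix X

/-- the set of primes with `P` has relative upper density `1` -/
def UpperOne (P : ℕ → Prop) : Prop := ∀ η : ℝ, 0 < η → ∀ X₀ : ℕ, ∃ X : ℕ, X₀ ≤ X ∧
  cp (fun n => ¬ P n) X ≤ η * pix X

/-- the class of all characters -/
def Any {q : ℕ} (_ : DirichletCharacter ℂ q) : Prop := True

/-- C1 (uses `L0 p`, `Lm p`, `Lhi p`, `P0`). `ε = min (δ/2) (1/20)`, `κ` the minimum (and `< 1`) for `Lm`, `Lhi`; `c` from `L0`. If there is an `XZ κ`: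
`χ(-N) = ±1` (`q < N`); `log q ≤ log N`, small `q`: `P0`. -/
def C1 (p : PF) : Prop := ∀ A δ : ℝ, 1 / 2 < A → 0 < δ → ZB Any (A + 1 / 2 - δ) →
  ∃ (c : ℝ) (N₀ : ℕ), 0 < c ∧ ∀ (N : ℕ) [Fact N.Prime], N₀ ≤ N → 1 / 2 + c ≤ p A N

/-- C2 (uses `Llo p`, `P1`). `ε' = min ε (δ/2)`, `κ` from `Llo`, `K = max K₀ (1/κ)`, `P1` with `s = χ(-1)`. -/
def C2 (p : PF) : Prop := ∀ A δ : ℝ, 1 / 2 < A → 0 < δ → ¬ ZB Any (A + 1 / 2 + δ) →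
  ∀ ε : ℝ, 0 < ε → ∀ N₀ : ℕ, ∃ (N : ℕ) (h : N.Prime), N₀ ≤ N ∧ |@p A N ⟨h⟩ - 1 / 2| ≤ ε

/-- C3 (uses `L0 p`, `Lm p`, `Lhi p`, `P0`, `PU`, `P3`). As `C1`, with `κ ≤ c_U / 2` and `κ ≤ 1 / K`. A bad prime `N ∈ [√X, X]` has an
`XZ κ` with `χ(-N) = 1`, `1 - β < (log N)^(-(A+1/2)+ε)`, so `χ` is even and `χ(N) = 1`; by `PU` with `D = X` (`1 - β < c_U / log X`) it is the
same character for all bad `N ∈ [√X, X]`: `P3`. The primes `≤ √X`: `P6`. -/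
def C3 (p : PF) : Prop := ∀ A δ : ℝ, 1 / 2 < A → 0 < δ → ZB (fun χ => χ.Odd) (A + 1 / 2 - δ) →
  ∃ c : ℝ, 0 < c ∧ AlmostAll (fun N => ∀ h : N.Prime, 1 / 2 + c ≤ @p A N ⟨h⟩)

/-- C4 (uses `Llo p`, `P3`, `P6`). `X = ⌈q^(2K')⌉`, `K' = max K (1/κ)`: all primes `N ∈ (q^K', X]` with `χ(N) = -1` have `χ(-N) = 1`, `XZ κ`,
`1 - β ≤ (log X)^(-(A+1/2)-ε')`. -/
def C4 (p : PF) : Prop := ∀ A δ : ℝ, 1 / 2 < A → 0 < δ → ¬ ZB (fun χ => χ.Odd) (A + 1 / 2 + δ) →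
  ∀ ε : ℝ, 0 < ε → UpperOne (fun N => ∀ h : N.Prime, |@p A N ⟨h⟩ - 1 / 2| ≤ ε)

/-- C5 (uses `L0 p`, `Lm p`, `Lhi p`, `P0`, `PU`, `C1 p`): long intervals. `δ ≤ min (A - 1/2) (1/20)` without loss; `ε = 3δ/4`. If `ZB Any (A + 1/2 - δ/2)`:
`C1`. If not: zeros with `w = 1 - β < (log q)^(-(A+1/2-δ/2))`; `Y = exp (w^(-1/(A+1/2-ε)))`; `log Y ≥ log q`; for the `N` of the interval
`(log N)^(-(A+1/2-ε)) ≤ w` and `w log N ≤ w^θ → 0`, so `PU` with `D = N`: an `XZ κ` at `N` is this zero. -/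
def C5 (p : PF) : Prop := ∀ A δ : ℝ, 1 / 2 < A → 0 < δ → ∃ c : ℝ, 0 < c ∧ ∀ Y₀ : ℝ, ∃ Y : ℝ, Y₀ ≤ Y ∧
  ∀ (N : ℕ) [Fact N.Prime], Y ≤ N → Real.log N ≤ Real.log Y ^ (A + 1 / 2 - δ) → 1 / 2 + c ≤ p A N

/-- C6 (uses `P0`, `P4`, `P5`): zeros and `L(1, χ)` -/
def C6 : Prop := ∀ P : ∀ {q : ℕ}, DirichletCharacter ℂ q → Prop, (∃ B, ZB P B) ↔ ∃ B, LB P B

/-- monotone in `A` -/
def Mono (p : PF) : Prop := ∀ (A A' : ℝ) (N : ℕ) [Fact N.Prime], 3 ≤ N → A ≤ A' → p A N ≤ p A' N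

/-- C7 (uses `Mono p`, `C1 p`, `C2 p`, `C6`): Q1 -/
def C7 (p : PF) : Prop := (∃ (A c : ℝ) (N₀ : ℕ), 0 < A ∧ 0 < c ∧ ∀ (N : ℕ) [Fact N.Prime], N₀ ≤ N →
  1 / 2 + c ≤ p A N) ↔ ∃ B, LB Any B

/-- C8 (uses `Mono p`, `C3 p`, `C4 p`, `C6`): Q1 for almost all primes -/
def C8 (p : PF) : Prop := (∃ A c : ℝ, 0 < A ∧ 0 < c ∧ AlmostAll (fun N => ∀ h : N.Prime,
  1 / 2 + c ≤ @p A N ⟨h⟩)) ↔ ∃ B, LB (fun χ => χ.Odd) B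

end Pool.Agent.T12
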