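import Pool.Agent.Lib_helper82.T12.Defs
import Pool.Agent.Lib_helper59.DH.M1
import Pool.Agent.Lib_helper59.DH.M2
import Pool.Agent.Lib_helper59.DH.M3
import Pool.Agent.Lib_helper59.DH.M4
import Pool.Agent.Lib_helper59.DH.M5
import Pool.Agent.Lib_helper59.DH.M6
import Pool.Agent.Lib_helper59.SZ.M5
import Pool.Agent.Lib_helper98.GAF.X6

/-!
# T12: the windows of the primes with an exceptional zero
-/

set_option autoImplicit false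

namespace Pool.Agent.T12

open Finset Complex
open Pool.Agent.GA (SKP wK PW Prm LF wK_nonneg mem_PW)
open Pool.Agent.LK (PQ)

/-! ## The library DH -/

theorem dh_a1 : DH.A1 := DH.A1_pr
theorem dh_a5 : DH.A5 := DH.A5_pr dh_a1 DH.A4_pr
theorem dh_c2 : DH.C2 := DH.C2_pr
theorem dh_c6 : DH.C6 := DH.C6_pr DH.C1_pr dh_c2 DH.C3_pr
theorem dh_c7 : DH.C7 :=
  DH.C7_pr DH.B1_pr dh_a5 dh_a1 DH.C1_pr DH.C4_pr DH.C5_pr dh_c6 dh_c2
theorem dh_den : DH.DEN := DH.DEN_pr dh_c7 dh_c2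
theorem dh_e2 : DH.E2 := DH.E2_pr dh_den

theorem pq_three {q : ℕ} [NeZero q] {χ : DirichletCharacter ℂ q} (h : PQ χ) : 3 ≤ q :=
  GA.three_le h.ne

theorem pq_prm {q : ℕ} [NeZero q] {χ : DirichletCharacter ℂ q} (h : PQ χ) : χ ∈ Prm q :=
  GA.mem_Prm.2 ⟨h.prim, h.ne⟩

theorem RZ.LF {q : ℕ} [NeZero q] {χ : DirichletCharacter ℂ q} {β : ℝ} (h : RZ χ β) :
    GA.LF χ (β : ℂ) = 0 := by
  rw [GA.LF_eq]
  exact h.zero

/-! ## One bad zero -/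

theorem wg_one {c : ℝ} {D : ℕ}
    (hs : ∑ q ∈ Icc 1 D, ∑ χ ∈ GA.Prm q, ∑ ρ ∈ LHM.BZ c D χ, GA.mlt (GA.LF χ) ρ ≤ 1)
    {q₁ : ℕ} {χ : DirichletCharacter ℂ q₁} (hq₁ : q₁ ∈ Icc 1 D) (hχ : χ ∈ GA.Prm q₁) {β : ℝ}
    (hβ : (β : ℂ) ∈ LHM.BZ c D χ) :
    LHM.BZ c D χ = {(β : ℂ)} ∧ GA.mlt (GA.LF χ) (β : ℂ) = 1 := by
  classical
  have hg0 : ∀ (q : ℕ) (ψ : DirichletCharacter ℂ q),
      0 ≤ ∑ ρ ∈ LHM.BZ c D ψ, GA.mlt (GA.LF ψ) ρ :=
    fun q ψ => sum_nonneg fun ρ _ => LHM.zb_mlt _ _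
  have h0 : ∑ ρ ∈ LHM.BZ c D χ, GA.mlt (GA.LF χ) ρ ≤ 1 := by
    have h5 := single_le_sum (f := fun ψ => ∑ ρ ∈ LHM.BZ c D ψ, GA.mlt (GA.LF ψ) ρ)
      (fun ψ _ => hg0 q₁ ψ) hχ
    have h6 := single_le_sum
      (f := fun q => ∑ ψ ∈ GA.Prm q, ∑ ρ ∈ LHM.BZ c D ψ, GA.mlt (GA.LF ψ) ρ)
      (fun q _ => sum_nonneg fun ψ _ => hg0 q ψ) hq₁
    linarith
  have hq := (mem_Icc.1 hq₁).1
  have h1 : LHM.BZ c D χ = {(β : ℂ)} := by
    refine Finset.eq_singleton_iff_unique_mem.2 ⟨hβ, fun ρ hρ => ?_⟩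
    by_contra hne
    have h3 : ({(β : ℂ), ρ} : Finset ℂ) ⊆ LHM.BZ c D χ := by
      intro x hx
      rw [mem_insert, mem_singleton] at hx
      rcases hx with rfl | rfl
      · exact hβ
      · exact hρ
    have h4 := sum_le_sum_of_subset_of_nonneg (f := fun ρ => GA.mlt (GA.LF χ) ρ) h3
      (fun ρ _ _ => LHM.zb_mlt _ _)
    rw [sum_pair (Ne.symm hne)] at h4
    have h5 := SZ.z2_one hq hχ hβ
    have h6 := SZ.z2_one hq hχ hρ
    linarith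
  refine ⟨h1, ?_⟩
  rw [h1, sum_singleton] at h0
  exact le_antisymm h0 (SZ.z2_one hq hχ hβ)

theorem bz_mem {c : ℝ} (hc : c ≤ 1 / 32) {D : ℕ} (hD : 2 ≤ D) {q : ℕ} [NeZero q]
    {χ : DirichletCharacter ℂ q} {β : ℝ} (h : RZ χ β) (hβ : 1 - c / Real.log D < β) :
    (β : ℂ) ∈ LHM.BZ c D χ ∧ 15 / 16 ≤ β := by
  have hD2 : (2 : ℝ) ≤ D := by exact_mod_cast hD
  have hl : 1 / 2 ≤ Real.log D := by
    have h1 := Real.log_two_gt_d9
    have h2 := Real.log_le_log (by norm_num : (0 : ℝ) < 2) hD2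
    linarith
  have h3 : c / Real.log D ≤ 1 / 16 := by
    rw [div_le_iff₀ (by linarith)]
    linarith
  have h4 : 15 / 16 ≤ β := by linarith
  refine ⟨?_, h4⟩
  rw [LHM.zb_mem (NeZero.pos q) (pq_prm h.pq)]
  refine ⟨⟨h.LF, ?_, ?_, ?_⟩, ?_⟩
  · rw [Complex.ofReal_re]
    linarith
  · rw [Complex.ofReal_re]
    exact h.lt.le
  · rw [Complex.ofReal_im, abs_zero]
    exact Nat.cast_nonneg _
  · rw [Complex.ofReal_re]
    exact hβ

theorem PU_pr : PU := by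
  obtain ⟨c, hc, hs⟩ := SZ.Z1_pr
  refine ⟨c, hc.1, fun D hD q _ χ β q' _ χ' β' hq hq' h h' hβ hβ' => ?_⟩
  have hm := (bz_mem hc.2.1 hD h hβ).1
  have hm' := (bz_mem hc.2.1 hD h' hβ').1
  have hi : q ∈ Icc 1 D := mem_Icc.2 ⟨NeZero.pos q, hq⟩
  have hi' : q' ∈ Icc 1 D := mem_Icc.2 ⟨NeZero.pos q', hq'⟩
  have h1 : SZ.Same χ χ' := by
    by_contra hne
    have h2 := SZ.z2_empty (hs D hD) hi (pq_prm h.pq) hm hi' (pq_prm h'.pq) hne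
    rw [h2] at hm'
    exact absurd hm' (Finset.notMem_empty _)
  refine ⟨h1.1, h1.2, ?_⟩
  obtain ⟨h3, h4⟩ := h1
  subst h3
  have h5 : χ = χ' := SZ.z2_same (NeZero.pos q) ⟨rfl, h4⟩
  subst h5
  obtain ⟨h6, -⟩ := wg_one (hs D hD) hi (pq_prm h.pq) hm
  rw [h6, mem_singleton] at hm'
  exact (Complex.ofReal_injective hm').symm

/-! ## The main input -/

theorem key : ∃ C c A c₀ : ℝ, 1 ≤ C ∧ 0 < c ∧ 1 ≤ A ∧ 0 < c₀ ∧ ∀ (q : ℕ) [NeZero q]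
    (χ : DirichletCharacter ℂ q) (β : ℝ), RZ χ β → ∀ D : ℕ, 4 ≤ D → q ≤ D →
    1 - c₀ / Real.log D < β → ∀ (k : ℕ) (M : ℝ), 2 ≤ M → A * Real.log D ≤ M → M ^ 2 ≤ k →
    4 * k ≤ D ^ 2 * M →
    ‖SKP (1 : DirichletCharacter ℂ 1) k M 0 - 1‖ ≤
      C * ((1 - β) * Real.log D + (D : ℝ) ^ (-c)) ∧
    ‖SKP χ k M 0 + ((((k / M) / (k / M + (1 - β))) ^ (k + 1) : ℝ) : ℂ)‖ ≤
      C * ((1 - β) * Real.log D + (D : ℝ) ^ (-c)) := by
  obtain ⟨c₀, hc₀, hs⟩ := SZ.Z1_pr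
  obtain ⟨C₁, c₁, A₁, hC₁, hc₁, hA₁, H₁⟩ := DH.E1_pr c₀ ⟨hc₀, hs⟩ dh_den dh_c2
  obtain ⟨C₂, c₂, A₂, hC₂, hc₂, hA₂, H₂⟩ := dh_e2
  refine ⟨C₁ + C₂, min c₁ c₂, max A₁ A₂, c₀, by linarith, lt_min hc₁ hc₂, le_max_of_le_left hA₁,
    hc₀.1, fun q _ χ β h D hD hq hβ k M hM hA hk hkD => ?_⟩
  obtain ⟨hm, hβ1⟩ := bz_mem hc₀.2.1 (by omega) h hβ
  have hEx : DH.Ex D χ β := ⟨by omega, NeZero.pos q, hq, (pq_prm h.pq), h.pq.sq, hβ1, h.lt, h.LF⟩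
  have hDR : (1 : ℝ) ≤ D := by exact_mod_cast (by omega : 1 ≤ D)
  have hl0 : 0 ≤ Real.log D := Real.log_nonneg hDR
  have hw : 0 ≤ (1 - β) * Real.log D := mul_nonneg (by linarith [h.lt]) hl0
  have e1 : (D : ℝ) ^ (-c₁) ≤ (D : ℝ) ^ (-(min c₁ c₂)) :=
    Real.rpow_le_rpow_of_exponent_le hDR (neg_le_neg (min_le_left _ _))
  have e2 : (D : ℝ) ^ (-c₂) ≤ (D : ℝ) ^ (-(min c₁ c₂)) :=
    Real.rpow_le_rpow_of_exponent_le hDR (neg_le_neg (min_le_right _ _))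
  have e0 : 0 ≤ (D : ℝ) ^ (-(min c₁ c₂)) := Real.rpow_nonneg (by linarith) _
  have hA1 : A₁ * Real.log D ≤ M :=
    (mul_le_mul_of_nonneg_right (le_max_left _ _) hl0).trans hA
  have hA2 : A₂ * Real.log D ≤ M :=
    (mul_le_mul_of_nonneg_right (le_max_right _ _) hl0).trans hA
  have g1 := H₁ D q χ β hD hEx hβ k M hM hA1 hk hkD
  have g2 := H₂ D q χ β hD hEx k M hM hA2 hk hkD
  constructor
  · refine g2.trans ?_
    have : C₂ * ((1 - β) * Real.log D + (D : ℝ) ^ (-c₂)) ≤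
        C₂ * ((1 - β) * Real.log D + (D : ℝ) ^ (-(min c₁ c₂))) :=
      mul_le_mul_of_nonneg_left (by linarith) (by linarith)
    have h5 : 0 ≤ C₁ * ((1 - β) * Real.log D + (D : ℝ) ^ (-(min c₁ c₂))) := by positivity
    linarith
  · have hi : q ∈ Icc 1 D := mem_Icc.2 ⟨NeZero.pos q, hq⟩
    have h6 : LHM.wg c₀ D χ k M = ((k / M) / (k / M + (1 - β))) ^ (k + 1) := by
      obtain ⟨h7, h8⟩ := wg_one (hs D (by omega)) hi (pq_prm h.pq) hm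
      unfold LHM.wg
      rw [h7, sum_singleton, h8, one_mul, Complex.ofReal_re]
    rw [← h6]
    have h9 : ‖SKP χ k M 0 + ((LHM.wg c₀ D χ k M : ℝ) : ℂ)‖ ≤
        ∑ q ∈ Icc 1 D, ∑ ψ ∈ Prm q, ‖SKP ψ k M 0 + ((LHM.wg c₀ D ψ k M : ℝ) : ℂ)‖ := by
      refine le_trans ?_ (single_le_sum (f := fun q => ∑ ψ ∈ Prm q,
        ‖SKP ψ k M 0 + ((LHM.wg c₀ D ψ k M : ℝ) : ℂ)‖) (fun q _ => sum_nonneg fun ψ _ =>
          norm_nonneg _) hi)
      exact single_le_sum (f := fun ψ => ‖SKP ψ k M 0 + ((LHM.wg c₀ D ψ k M : ℝ) : ℂ)‖)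
        (fun ψ _ => norm_nonneg _) (pq_prm h.pq)
    refine (h9.trans g1).trans ?_
    have : C₁ * ((1 - β) * Real.log D + (D : ℝ) ^ (-c₁)) ≤
        C₁ * ((1 - β) * Real.log D + (D : ℝ) ^ (-(min c₁ c₂))) :=
      mul_le_mul_of_nonneg_left (by linarith) (by linarith)
    have h5 : 0 ≤ C₂ * ((1 - β) * Real.log D + (D : ℝ) ^ (-(min c₁ c₂))) := by positivity
    linarith

/-! ## The term of the zero -/

/-- `W = (1 + wM/k)^(-(k+1))` -/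
theorem W_eq {k : ℕ} {M w : ℝ} (hk : 1 ≤ k) (hM : 0 < M) (hw : 0 ≤ w) :
    ((k / M) / (k / M + w)) ^ (k + 1) = ((1 + w * M / k) ^ (k + 1))⁻¹ := by
  have hk0 : (0 : ℝ) < k := by exact_mod_cast hk
  rw [← inv_pow]
  congr 1
  have h1 : k / M + w ≠ 0 := by positivity
  have h2 : 1 + w * M / k ≠ 0 := by positivity
  field_simp

theorem W_up {k : ℕ} {M w : ℝ} (hk : 1 ≤ k) (hM : 0 < M) (hw : 0 ≤ w) :
    ((k / M) / (k / M + w)) ^ (k + 1) ≤ (1 + w * M)⁻¹ := by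
  rw [W_eq hk hM hw]
  have hk0 : (0 : ℝ) < k := by exact_mod_cast hk
  apply inv_anti₀ (by positivity)
  have h1 := one_add_mul_le_pow (a := w * M / k) (by
    have : 0 ≤ w * M / k := by positivity
    linarith) (k + 1)
  refine le_trans ?_ h1
  have h2 : w * M = k * (w * M / k) := by field_simp
  have h3 : 0 ≤ w * M / k := by positivity
  push_cast
  nlinarith

theorem W_lo {k : ℕ} {M w : ℝ} (hk : 1 ≤ k) (hM : 0 < M) (hw : 0 ≤ w) :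
    1 - 2 * (w * M) ≤ ((k / M) / (k / M + w)) ^ (k + 1) := by
  have hk0 : (0 : ℝ) < k := by exact_mod_cast hk
  have hk1 : (1 : ℝ) ≤ k := by exact_mod_cast hk
  set x : ℝ := w * M / k with hx
  have hx0 : 0 ≤ x := by positivity
  have h1 : ((k / M) / (k / M + w)) = (1 + x)⁻¹ := by
    have h1 : k / M + w ≠ 0 := by positivity
    have h2 : 1 + w * M / k ≠ 0 := by positivity
    rw [hx]
    field_simp
  rw [h1]
  have h2 : 1 - x ≤ (1 + x)⁻¹ := by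
    rw [← one_div, le_div_iff₀ (by linarith)]
    nlinarith
  have h4 : w * M = k * x := by rw [hx]; field_simp
  rcases le_or_gt x 1 with h3 | h3
  · have h5 := one_add_mul_le_pow (a := -x) (by linarith) (k + 1)
    have h6 : (1 + -x) ^ (k + 1) ≤ ((1 + x)⁻¹) ^ (k + 1) :=
      pow_le_pow_left₀ (by linarith) (by linarith) _
    refine le_trans ?_ (h5.trans h6)
    rw [h4]
    push_cast
    nlinarith
  · have h5 : 0 ≤ ((1 + x)⁻¹) ^ (k + 1) := by positivity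
    have h6 : 1 ≤ k * x := by nlinarith
    rw [h4]
    linarith

/-! ## The integer `D` -/

theorem exD {a M : ℝ} (ha : 0 < a) (h : 2 ≤ M / a) (x : ℝ) (hx : x ≤ M / (2 * a)) :
    ∃ D : ℕ, 4 ≤ D ∧ Real.exp x ≤ D ∧ a * Real.log D ≤ M ∧ M / (2 * a) ≤ Real.log D ∧
      Real.exp (M / a) ≤ 2 * D := by
  set y : ℝ := M / a with hy
  have h1 : 2 * Real.log 2 ≤ y := by
    have := Real.log_two_lt_d9
    linarith
  have h4 : (4 : ℝ) ≤ Real.exp y := by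
    have h2 : Real.exp (2 * Real.log 2) ≤ Real.exp y := Real.exp_le_exp.2 h1
    have h3 : Real.exp (2 * Real.log 2) = 4 := by
      rw [two_mul, Real.exp_add, Real.exp_log (by norm_num)]
      norm_num
    linarith
  have hy2 : M / (2 * a) = y / 2 := by
    rw [hy]
    field_simp
  have hfl : Real.exp y / 2 ≤ ⌊Real.exp y⌋₊ := by
    have := Nat.sub_one_lt_floor (Real.exp y)
    linarith
  have hfu : (⌊Real.exp y⌋₊ : ℝ) ≤ Real.exp y := Nat.floor_le (Real.exp_pos _).le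
  have hf4 : 4 ≤ ⌊Real.exp y⌋₊ := Nat.le_floor (by exact_mod_cast h4)
  have hf0 : (0 : ℝ) < ⌊Real.exp y⌋₊ := by exact_mod_cast (by omega : 0 < ⌊Real.exp y⌋₊)
  have hlow : Real.exp (y / 2) ≤ ⌊Real.exp y⌋₊ := by
    have h5 : Real.exp (y / 2) * Real.exp (y / 2) = Real.exp y := by
      rw [← Real.exp_add]
      congr 1
      ring
    have h6 : 2 ≤ Real.exp (y / 2) := by
      have h7 : Real.exp (Real.log 2) ≤ Real.exp (y / 2) := Real.exp_le_exp.2 (by linarith)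
      rwa [Real.exp_log (by norm_num)] at h7
    nlinarith
  refine ⟨⌊Real.exp y⌋₊, hf4, ?_, ?_, ?_, by linarith⟩
  · refine le_trans (Real.exp_le_exp.2 ?_) hlow
    linarith
  · have h7 : Real.log (⌊Real.exp y⌋₊ : ℝ) ≤ y := by
      have h9 := Real.log_le_log hf0 hfu
      rwa [Real.log_exp] at h9
    have h8 : a * y = M := by rw [hy]; field_simp
    rw [← h8]
    exact mul_le_mul_of_nonneg_left h7 ha.le
  · rw [hy2, Real.le_log_iff_exp_le hf0]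
    exact hlow

end Pool.Agent.T12
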