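import Pool.Agent.Lib_helper82.T12.Defs

/-!
# T12: densities in the set of primes
-/

set_option autoImplicit false

namespace Pool.Agent.T12

open Finset Filter Topology

/-- the share of the primes `N ≤ X` with `P N` -/
noncomputable def share (P : ℕ → Prop) (X : ℕ) : ℝ :=
  ({N : ℕ | N ≤ X ∧ N.Prime ∧ P N}.ncard : ℝ) / ({N : ℕ | N ≤ X ∧ N.Prime}.ncard : ℝ)

theorem cp_ncard (P : ℕ → Prop) (X : ℕ) :
    cp P X = ({N : ℕ | N ≤ X ∧ N.Prime ∧ P N}.ncard : ℝ) := by
  classical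
  unfold cp
  rw [← Set.ncard_coe_finset]
  congr 2
  ext n
  simp only [coe_filter, mem_range, Set.mem_ofPred_eq, Nat.lt_succ_iff]

theorem pix_ncard (X : ℕ) : pix X = ({N : ℕ | N ≤ X ∧ N.Prime}.ncard : ℝ) := by
  unfold pix
  rw [cp_ncard]
  congr 2
  ext n
  simp

theorem fin_set (P : ℕ → Prop) (X : ℕ) : {N : ℕ | N ≤ X ∧ N.Prime ∧ P N}.Finite :=
  (Set.finite_Iic X).subset fun _ hn => hn.1

theorem cp_compl (P : ℕ → Prop) (X : ℕ) : cp P X + cp (fun n => ¬ P n) X = pix X := by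
  rw [cp_ncard, cp_ncard, pix_ncard, ← Nat.cast_add, ← Set.ncard_union_eq _ (fin_set _ _)
    (fin_set _ _)]
  · congr 2
    ext n
    simp only [Set.mem_union, Set.mem_ofPred_eq]
    tauto
  · rw [Set.disjoint_left]
    intro n h1 h2
    exact h2.2.2 h1.2.2

theorem pix_pos {X : ℕ} (hX : 2 ≤ X) : 0 < pix X := by
  rw [pix_ncard, Nat.cast_pos, Set.ncard_pos ((Set.finite_Iic X).subset fun _ hn => hn.1)]
  exact ⟨2, hX, Nat.prime_two⟩

theorem share_eq {P : ℕ → Prop} {X : ℕ} (hX : 2 ≤ X) :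
    share P X = 1 - cp (fun n => ¬ P n) X / pix X := by
  have h1 := pix_pos hX
  have h2 := cp_compl P X
  unfold share
  rw [← cp_ncard, ← pix_ncard, eq_sub_iff_add_eq, ← add_div, h2, div_self h1.ne']

theorem share_le_one (P : ℕ → Prop) (X : ℕ) : share P X ≤ 1 := by
  unfold share
  apply div_le_one_of_le₀ _ (Nat.cast_nonneg _)
  norm_cast
  apply Set.ncard_le_ncard
  · rintro n ⟨h1, h2, -⟩
    exact ⟨h1, h2⟩
  · exact (Set.finite_Iic X).subset fun n hn => hn.1

theorem almostAll_iff (P : ℕ → Prop) :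
    AlmostAll P ↔ Tendsto (share P) atTop (𝓝 1) := by
  unfold AlmostAll
  rw [Metric.tendsto_atTop]
  constructor
  · intro h ε hε
    obtain ⟨X₀, h⟩ := h (ε / 2) (by positivity)
    refine ⟨X₀ + 2, fun X hX => ?_⟩
    have h1 := h X (by omega)
    have h2 := pix_pos (by omega : 2 ≤ X)
    have h3 := share_le_one P X
    rw [Real.dist_eq, abs_sub_comm, abs_of_nonneg (by linarith), share_eq (by omega)]
    have h4 : cp (fun n => ¬ P n) X / pix X ≤ ε / 2 := (div_le_iff₀ h2).2 h1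
    linarith
  · intro h η hη
    obtain ⟨X₀, h⟩ := h η hη
    refine ⟨X₀ + 2, fun X hX => ?_⟩
    have h1 := h X (by omega)
    have h2 := pix_pos (by omega : 2 ≤ X)
    have h3 := share_le_one P X
    rw [Real.dist_eq, abs_sub_comm, abs_of_nonneg (by linarith), share_eq (by omega)] at h1
    have h4 : cp (fun n => ¬ P n) X / pix X ≤ η := by linarith
    exact (div_le_iff₀ h2).1 h4

theorem upperOne_iff (P : ℕ → Prop) :
    UpperOne P ↔ ∀ η : ℝ, 0 < η → ∃ᶠ X : ℕ in atTop, 1 - η ≤ share P X := by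
  unfold UpperOne
  constructor
  · intro h η hη
    rw [frequently_atTop]
    intro X₀
    obtain ⟨X, hX, h1⟩ := h η hη (X₀ + 2)
    refine ⟨X, by omega, ?_⟩
    have h2 := pix_pos (by omega : 2 ≤ X)
    rw [share_eq (by omega)]
    have h4 : cp (fun n => ¬ P n) X / pix X ≤ η := (div_le_iff₀ h2).2 h1
    linarith
  · intro h η hη X₀
    have h1 := h η hη
    rw [frequently_atTop] at h1
    obtain ⟨X, hX, h1⟩ := h1 (X₀ + 2)
    refine ⟨X, by omega, ?_⟩
    have h2 := pix_pos (by omega : 2 ≤ X)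
    rw [share_eq (by omega)] at h1
    have h4 : cp (fun n => ¬ P n) X / pix X ≤ η := by linarith
    exact (div_le_iff₀ h2).1 h4

end Pool.Agent.T12
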