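import Pool.Agent.Lib_helper82.T12.Lim

/-!
# T12: the two theorems for a function with the laws
-/

set_option autoImplicit false

namespace Pool.Agent.T12

open Finset Filter Topology
open Pool.Agent.LK (PQ)

/-- the lower limit is decided by the zeros -/
theorem h1_main (p : PF) (h0 : ∀ (A : ℝ) (N : ℕ) [Fact N.Prime], 0 ≤ p A N)
    (h1 : ∀ (A : ℝ) (N : ℕ) [Fact N.Prime], p A N ≤ 1)
    (low : ∀ A : ℝ, A < 1 / 2 → ∀ ε : ℝ, 0 < ε → ∃ N₀ : ℕ, ∀ (N : ℕ) [Fact N.Prime], N₀ ≤ N →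
      p A N ≤ ε)
    (half : ∀ A : ℝ, 1 / 2 < A → ∀ ε : ℝ, 0 < ε → ∃ N₀ : ℕ, ∀ (N : ℕ) [Fact N.Prime], N₀ ≤ N →
      1 / 2 - ε ≤ p A N)
    (c1 : C1s p) (c2 : C2 p) (c7 : C7 p) :
    (∀ A : ℝ, A < 1 / 2 → lim (p A) = 0) ∧
    (∀ A δ : ℝ, 1 / 2 < A → 0 < δ → ¬ ZB Any (A + 1 / 2 + δ) → lim (p A) = 1 / 2) ∧
    (∃ c : ℝ, 0 < c ∧ ∀ A δ : ℝ, 1 / 2 < A → 0 < δ → ZB Any (A + 1 / 2 - δ) →
      1 / 2 + c ≤ lim (p A)) ∧
    ((∃ A : ℝ, 0 < A ∧ 1 / 2 < lim (p A)) ↔ ∃ B, LB Any B) := by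
  refine ⟨fun A hA => ?_, fun A δ hA hδ hZ => ?_, ?_, ?_⟩
  · apply le_antisymm
    · apply le_of_forall_pos_le_add
      intro ε hε
      obtain ⟨N₁, h⟩ := low A hA ε hε
      rw [zero_add]
      apply lim_le (h0 A)
      intro N₀
      obtain ⟨q, hq, hp⟩ := Nat.exists_infinite_primes (N₀ + N₁)
      exact ⟨q, hp, by omega, @h q ⟨hp⟩ (by omega)⟩
    · exact le_lim (h1 A) ⟨0, fun N _ _ => h0 A N⟩
  · apply le_antisymm
    · apply le_of_forall_pos_le_add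
      intro ε hε
      apply lim_le (h0 A)
      intro N₀
      obtain ⟨N, hp, hN, h⟩ := c2 A δ hA hδ hZ ε hε N₀
      refine ⟨N, hp, hN, ?_⟩
      have := (abs_le.1 h).2
      linarith
    · apply le_of_forall_pos_le_add
      intro ε hε
      have := le_lim (h1 A) (half A hA ε hε)
      linarith
  · obtain ⟨c, hc, h⟩ := c1
    exact ⟨c, hc, fun A δ hA hδ hZ => le_lim (h1 A) (h A δ hA hδ hZ)⟩
  · unfold C7 at c7
    rw [← c7]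
    constructor
    · rintro ⟨A, hA, h⟩
      obtain ⟨c, hc, N₀, h2⟩ := (lt_lim_iff (h0 A) (h1 A)).1 h
      exact ⟨A, c, N₀, hA, hc, h2⟩
    · rintro ⟨A, c, N₀, hA, hc, h2⟩
      exact ⟨A, hA, (lt_lim_iff (h0 A) (h1 A)).2 ⟨c, hc, N₀, h2⟩⟩

end Pool.Agent.T12
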