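import Pool.Agent.Lib_helper82.T12.A

/-!
# T12: the primes with `χ(p) = 1` in one window
-/

set_option autoImplicit false

namespace Pool.Agent.T12

open Finset Complex
open Pool.Agent.GA (SKP SK wK PW Prm LF wK_nonneg mem_PW wK_eq)
open Pool.Agent.LK (PQ)
open scoped ArithmeticFunction.vonMangoldt

theorem mem_PM {M : ℝ} {p : ℕ} : p ∈ PM M ↔ p.Prime ∧ |Real.log p - M| ≤ 1 := by
  unfold PM
  rw [Finset.mem_filter, Finset.mem_range, Nat.lt_succ_iff]
  constructor
  · exact fun h => h.2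
  · intro h
    refine ⟨?_, h⟩
    have hp : (0 : ℝ) < p := by exact_mod_cast h.1.pos
    apply Nat.le_floor
    have h1 := (abs_le.1 h.2).2
    rw [← Real.exp_log hp]
    exact Real.exp_le_exp.2 (by linarith)

/-- summability of the terms of `SKP` -/
theorem skp_summable {q : ℕ} [NeZero q] (χ : DirichletCharacter ℂ q) {k : ℕ} {M : ℝ} (hM : 2 ≤ M)
    (hk : M ^ 2 ≤ k) : Summable (fun n : ℕ => if n.Prime then
      ((Real.log n * wK k M n : ℝ) : ℂ) * χ (n : ZMod q) * (n : ℂ) ^ (-(((0 : ℝ) : ℂ) * I) : ℂ)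
      else 0) := by
  obtain ⟨C, hC, h⟩ := GA.x1_powers_wK
  obtain ⟨hs, hle⟩ := h k M hM hk
  have hk0 : (0 : ℝ) < k := by nlinarith
  have hσ : 0 < k / M := by positivity
  obtain ⟨hsum, -⟩ := GA.SK_eq χ hσ 0
  have hdiff : ∀ n : ℕ, ‖((Λ n * wK k M n : ℝ) : ℂ) * χ (n : ZMod q) *
      (n : ℂ) ^ (-(((0 : ℝ) : ℂ) * I) : ℂ) -
      (if n.Prime then ((Real.log n * wK k M n : ℝ) : ℂ) * χ (n : ZMod q) *
    (n : ℂ) ^ (-(((0 : ℝ) : ℂ) * I) : ℂ) else 0)‖ ≤ (if n.Prime then 0 else Λ n * wK k M n) := by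
    intro n
    by_cases hp : n.Prime
    · rw [if_pos hp, if_pos hp, ArithmeticFunction.vonMangoldt_apply_prime hp, sub_self, norm_zero]
    · rw [if_neg hp, if_neg hp, sub_zero]
      rcases Nat.eq_zero_or_pos n with rfl | hn
      · simp
      · rw [norm_mul, norm_mul, GA.x3_cpow_norm 0 hn, mul_one, Complex.norm_real,
          Real.norm_of_nonneg (mul_nonneg ArithmeticFunction.vonMangoldt_nonneg
            (wK_nonneg (by linarith) n))]
        have h1 := χ.norm_le_one (n : ZMod q)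
        have h2 : 0 ≤ Λ n * wK k M n := mul_nonneg ArithmeticFunction.vonMangoldt_nonneg
            (wK_nonneg (by linarith) n)
        nlinarith
  have hsumd := Summable.of_norm_bounded hs hdiff
  refine (hsum.sub hsumd).congr fun n => ?_
  ring

/-- the real part -/
theorem skp_re {q : ℕ} [NeZero q] (χ : DirichletCharacter ℂ q) {k : ℕ} {M : ℝ} (hM : 2 ≤ M)
    (hk : M ^ 2 ≤ k) : Summable (fun n : ℕ => if n.Prime then
      (χ (n : ZMod q)).re * (Real.log n * wK k M n) else 0) ∧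
    (SKP χ k M 0).re = ∑' n : ℕ, if n.Prime then
      (χ (n : ZMod q)).re * (Real.log n * wK k M n) else 0 := by
  have h := skp_summable χ hM hk
  have hre : ∀ n : ℕ, (if n.Prime then
      ((Real.log n * wK k M n : ℝ) : ℂ) * χ (n : ZMod q) * (n : ℂ) ^ (-(((0 : ℝ) : ℂ) * I) : ℂ)
      else 0).re = if n.Prime then (χ (n : ZMod q)).re * (Real.log n * wK k M n) else 0 := by
    intro n
    by_cases hp : n.Prime
    · rw [if_pos hp, if_pos hp]
      simp only [Complex.ofReal_zero, zero_mul, neg_zero, Complex.cpow_zero, mul_one]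
      rw [Complex.re_ofReal_mul]
      ring
    · rw [if_neg hp, if_neg hp, Complex.zero_re]
  have h1 := (Complex.hasSum_re h.hasSum)
  have h2 : HasSum (fun n : ℕ => if n.Prime then
      (χ (n : ZMod q)).re * (Real.log n * wK k M n) else 0) (SKP χ k M 0).re := by
    have h3 : (fun n : ℕ => (if n.Prime then
      ((Real.log n * wK k M n : ℝ) : ℂ) * χ (n : ZMod q) * (n : ℂ) ^ (-(((0 : ℝ) : ℂ) * I) : ℂ)
      else 0).re) = fun n : ℕ => if n.Prime then
      (χ (n : ZMod q)).re * (Real.log n * wK k M n) else 0 := funext hre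
    rw [h3] at h1
    exact h1
  exact ⟨h2.summable, h2.tsum_eq.symm⟩

theorem re_abs {q : ℕ} (χ : DirichletCharacter ℂ q) (n : ℕ) : |(χ (n : ZMod q)).re| ≤ 1 :=
  (Complex.abs_re_le_norm _).trans (χ.norm_le_one _)

theorem skp_pos {q : ℕ} [NeZero q] (χ : DirichletCharacter ℂ q) {k : ℕ} {M : ℝ} (hM : 2 ≤ M)
    (hk : M ^ 2 ≤ k) :
    ∑ p ∈ PM M, (1 + (χ (p : ZMod q)).re) * (Real.log p * wK k M p) ≤
      (SKP (1 : DirichletCharacter ℂ 1) k M 0).re + (SKP χ k M 0).re := by
  obtain ⟨s1, e1⟩ := skp_re (1 : DirichletCharacter ℂ 1) hM hk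
  obtain ⟨s2, e2⟩ := skp_re χ hM hk
  rw [e1, e2, ← s1.tsum_add s2]
  have hone : ∀ n : ℕ, ((1 : DirichletCharacter ℂ 1) (n : ZMod 1)).re = 1 := by
    intro n
    have : (n : ZMod 1) = 1 := Subsingleton.elim _ _
    rw [this, map_one, Complex.one_re]
  have hw : ∀ n : ℕ, 0 ≤ Real.log n * wK k M n := fun n =>
    mul_nonneg (Real.log_natCast_nonneg n) (wK_nonneg (by linarith) n)
  refine le_trans (le_of_eq (sum_congr rfl fun p hp => ?_)) ((s1.add s2).sum_le_tsum (PM M) ?_)
  · rw [if_pos (mem_PM.1 hp).1, if_pos (mem_PM.1 hp).1, hone]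
    ring
  · intro n _
    by_cases hp : n.Prime
    · rw [if_pos hp, if_pos hp, hone]
      have h1 := (abs_le.1 (re_abs χ n)).1
      have h2 := hw n
      nlinarith
    · rw [if_neg hp, if_neg hp, add_zero]

/-- the window is at least `e^(-5)/n` near its centre -/
theorem wK_low {k : ℕ} {M : ℝ} (hM : 4 ≤ M) (hk : M ^ 2 ≤ k) (hk2 : (k : ℝ) ≤ 2 * M ^ 2) {n : ℕ}
    (hn : 1 ≤ n) (h : |Real.log n - M| ≤ 1) : Real.exp (-5) * (1 / n) ≤ wK k M n := by
  have hk0 : (0 : ℝ) < k := by nlinarith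
  have hk1 : 1 ≤ k := by
    have : (0 : ℝ) < k := hk0
    exact_mod_cast this
  have hM0 : 0 < M := by linarith
  have hn0 : (0 : ℝ) < n := by exact_mod_cast hn
  have hs : 0 < Real.sqrt k := Real.sqrt_pos.2 hk0
  rw [wK_eq hn]
  set v : ℝ := (Real.log n - M) / M with hv
  have hy : k / M * Real.log n = k * (1 + v) := by rw [hv]; field_simp; ring
  have hv1 : |v| ≤ 1 / M := by
    rw [hv, abs_div, abs_of_pos hM0]
    exact div_le_div_of_nonneg_right h hM0.le
  have hv2 : |v| ≤ 1 / 4 := hv1.trans (by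
    rw [div_le_div_iff₀ hM0 (by norm_num)]; linarith)
  have hv3 : v ^ 2 * M ^ 2 ≤ 1 := by
    rw [← sq_abs v]
    have h1 : |v| * M ≤ 1 := by
      rwa [le_div_iff₀ hM0] at hv1
    have h2 : 0 ≤ |v| * M := by positivity
    nlinarith
  have hkv : k * (2 * v ^ 2) ≤ 4 := by nlinarith [sq_nonneg v]
  rw [abs_le] at hv2
  have h0 : (0 : ℝ) < 1 + v := by linarith
  rw [hy]
  have h1 : Real.exp (-5) / Real.sqrt k ≤ (k * (1 + v)) ^ k / k.factorial *
      Real.exp (-(k * (1 + v))) := by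
    have h2 := GA.x1_stirling_up hk1
    have hf : (0 : ℝ) < k.factorial := by exact_mod_cast k.factorial_pos
    have h3 : (k * (1 + v)) ^ k / (Real.exp 1 * Real.sqrt k * (k / Real.exp 1) ^ k) ≤
        (k * (1 + v)) ^ k / k.factorial :=
      div_le_div_of_nonneg_left (by positivity) hf h2
    have h4 : (k * (1 + v)) ^ k / (Real.exp 1 * Real.sqrt k * (k / Real.exp 1) ^ k) =
        (1 + v) ^ k * Real.exp k * Real.exp (-1) / Real.sqrt k := by
      rw [mul_pow, div_pow, Real.exp_neg]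
      have h5 : Real.exp (k : ℝ) = Real.exp 1 ^ k := by
        rw [← Real.exp_nat_mul, mul_one]
      rw [h5]
      have : (k : ℝ) ^ k ≠ 0 := by positivity
      field_simp
    have h6 : Real.exp (k * (v - 2 * v ^ 2)) ≤ (1 + v) ^ k := by
      have h7 := GA.x1_log (u := v) (by linarith)
      calc Real.exp (k * (v - 2 * v ^ 2)) ≤ Real.exp (k * Real.log (1 + v)) :=
            Real.exp_le_exp.2 (mul_le_mul_of_nonneg_left h7 hk0.le)
        _ = (1 + v) ^ k := by rw [Real.exp_nat_mul, Real.exp_log h0]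
    calc Real.exp (-5) / Real.sqrt k ≤ Real.exp (k * (v - 2 * v ^ 2)) * Real.exp k *
          Real.exp (-1) / Real.sqrt k * Real.exp (-(k * (1 + v))) := by
          rw [div_mul_eq_mul_div]
          apply div_le_div_of_nonneg_right _ hs.le
          rw [← Real.exp_add, ← Real.exp_add, ← Real.exp_add]
          apply Real.exp_le_exp.2
          nlinarith
      _ ≤ (1 + v) ^ k * Real.exp k * Real.exp (-1) / Real.sqrt k *
          Real.exp (-(k * (1 + v))) := by gcongr
      _ = (k * (1 + v)) ^ k / (Real.exp 1 * Real.sqrt k * (k / Real.exp 1) ^ k) *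
          Real.exp (-(k * (1 + v))) := by rw [h4]
      _ ≤ _ := mul_le_mul_of_nonneg_right h3 (Real.exp_pos _).le
  have h8 : 1 ≤ k / M / Real.sqrt k := by
    rw [le_div_iff₀ hs, one_mul, le_div_iff₀ hM0]
    have h9 : Real.sqrt k * Real.sqrt k = k := Real.mul_self_sqrt hk0.le
    have h10 : M ≤ Real.sqrt k := Real.le_sqrt_of_sq_le hk
    nlinarith
  calc Real.exp (-5) * (1 / n) ≤ (k / M / Real.sqrt k) * (Real.exp (-5) * (1 / n)) := by
        have : 0 < Real.exp (-5) * (1 / n) := by positivity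
        nlinarith
    _ = k / M * (Real.exp (-5) / Real.sqrt k) / n := by ring
    _ ≤ _ := by gcongr

/-- trivial bound -/
theorem pm_triv {q : ℕ} (χ : DirichletCharacter ℂ q) (M : ℝ) :
    ∑ p ∈ PM M, (1 + (χ (p : ZMod q)).re) * (Real.log p / p) ≤ 21 := by
  have h1 : ∀ p ∈ PM M, (1 + (χ (p : ZMod q)).re) * (Real.log p / p) ≤
      2 * Real.exp (-(M - 1)) * Real.log p := by
    intro p hp
    obtain ⟨hp1, hp2⟩ := mem_PM.1 hp
    have hp0 : (0 : ℝ) < p := by exact_mod_cast hp1.pos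
    have h2 := (abs_le.1 (re_abs χ p)).2
    have h3 : 0 ≤ Real.log p := Real.log_natCast_nonneg p
    have h4 : 1 / (p : ℝ) ≤ Real.exp (-(M - 1)) := by
      rw [Real.exp_neg, one_div]
      apply inv_anti₀ (Real.exp_pos _)
      rw [← Real.le_log_iff_exp_le hp0]
      have := (abs_le.1 hp2).1
      linarith
    calc (1 + (χ (p : ZMod q)).re) * (Real.log p / p) ≤ 2 * (Real.log p / p) :=
          mul_le_mul_of_nonneg_right (by linarith) (by positivity)
      _ = 2 * (1 / p) * Real.log p := by ring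
      _ ≤ _ := by gcongr
  have h5 : ∑ p ∈ PM M, Real.log (p : ℝ) ≤ Chebyshev.theta (Real.exp (M + 1)) := by
    rw [Chebyshev.theta_eq_sum_Icc]
    refine sum_le_sum_of_subset_of_nonneg ?_ fun p _ _ => Real.log_natCast_nonneg p
    intro p hp
    have hp' := hp
    unfold PM at hp'
    rw [mem_filter, mem_range] at hp'
    rw [mem_filter, mem_Icc]
    exact ⟨⟨Nat.zero_le _, by omega⟩, hp'.2.1⟩
  have h6 := Chebyshev.theta_le_log4_mul_x (Real.exp_pos (M + 1)).le
  have h7 : Real.log 4 ≤ 1.3863 := by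
    have : Real.log 4 = 2 * Real.log 2 := by
      rw [show (4 : ℝ) = 2 ^ 2 by norm_num, Real.log_pow]
      norm_num
    have := Real.log_two_lt_d9
    linarith
  have h8 : Real.exp (-(M - 1)) * Real.exp (M + 1) = Real.exp 1 * Real.exp 1 := by
    rw [← Real.exp_add, ← Real.exp_add]
    congr 1
    ring
  have h9 : Real.exp 1 * Real.exp 1 ≤ 7.3891 := by
    have := Real.exp_one_lt_d9
    have := Real.exp_pos 1
    nlinarith
  calc ∑ p ∈ PM M, (1 + (χ (p : ZMod q)).re) * (Real.log p / p) ≤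
        ∑ p ∈ PM M, 2 * Real.exp (-(M - 1)) * Real.log p := sum_le_sum h1
    _ = 2 * Real.exp (-(M - 1)) * ∑ p ∈ PM M, Real.log (p : ℝ) := by rw [mul_sum]
    _ ≤ 2 * Real.exp (-(M - 1)) * (Real.log 4 * Real.exp (M + 1)) := by
        apply mul_le_mul_of_nonneg_left (h5.trans h6) (by positivity)
    _ = 2 * Real.log 4 * (Real.exp (-(M - 1)) * Real.exp (M + 1)) := by ring
    _ = 2 * Real.log 4 * (Real.exp 1 * Real.exp 1) := by rw [h8]
    _ ≤ 2 * 1.3863 * 7.3891 := by
        have : 0 ≤ Real.log 4 := Real.log_nonneg (by norm_num)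
        gcongr
    _ ≤ 21 := by norm_num

theorem P2_pr : P2 := by
  obtain ⟨C, c, A, c₀, hC, hc, hA, hc₀, key⟩ := key
  have hA0 : 0 < A := by linarith
  refine ⟨Real.exp 5 * (2 + 2 * C) + 21 / c₀, c / (2 * A), 4 * A ^ 2 + 8, ?_, by positivity, by
    nlinarith only [hA], fun q _ χ β hz M hM hqM => ?_⟩
  · have h1 : 1 ≤ Real.exp 5 := Real.one_le_exp (by norm_num)
    have h2 : 0 < 21 / c₀ := by positivity
    nlinarith only [h1, h2, hC]
  set w : ℝ := 1 - β with hw
  have hw0 : 0 < w := by have := hz.lt; linarith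
  have hq0 : (0 : ℝ) < q := by exact_mod_cast NeZero.pos q
  have hlq : 0 ≤ Real.log q := Real.log_natCast_nonneg q
  have hM8 : 8 ≤ M := by nlinarith only [hM, hA]
  have hM0 : 0 < M := by linarith
  have hMA : 4 * A ^ 2 ≤ M := by linarith
  have he0 : 0 < Real.exp (-(c / (2 * A) * M)) := Real.exp_pos _
  obtain ⟨D, hD4, hDq, hDM, hDl, hDe⟩ := exD hA0 (M := M) (by
    rw [le_div_iff₀ hA0]
    nlinarith only [hM, hA]) (Real.log q) (by
    rw [le_div_iff₀ (by positivity)]
    nlinarith)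
  rw [Real.exp_log hq0] at hDq
  have hqD : q ≤ D := by exact_mod_cast hDq
  have hDR : (4 : ℝ) ≤ D := by exact_mod_cast hD4
  have hlD : 0 < Real.log D := Real.log_pos (by linarith)
  have hlDM : Real.log D ≤ M := by nlinarith only [hDM, hA, hlD]
  by_cases hβD : 1 - c₀ / Real.log D < β
  swap
  · push Not at hβD
    have h1 : c₀ ≤ w * M := by
      have h2 : c₀ / Real.log D ≤ w := by linarith
      have h3 : c₀ ≤ w * Real.log D := (div_le_iff₀ hlD).1 h2
      nlinarith
    have h4 : 21 ≤ 21 / c₀ * (w * M) := by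
      rw [div_mul_eq_mul_div, le_div_iff₀ hc₀]
      nlinarith
    refine (pm_triv χ M).trans (h4.trans ?_)
    have h5 : 0 ≤ Real.exp 5 * (2 + 2 * C) := by positivity
    have h6 : 0 ≤ 21 / c₀ := by positivity
    have h7 : 0 ≤ w * M := by positivity
    nlinarith [mul_nonneg h5 h7, mul_nonneg h5 he0.le, mul_nonneg h6 he0.le]
  -- `k`
  obtain ⟨k, hk1, hk2⟩ : ∃ k : ℕ, M ^ 2 ≤ k ∧ (k : ℝ) ≤ 2 * M ^ 2 := by
    refine ⟨⌈M ^ 2⌉₊, Nat.le_ceil _, ?_⟩
    have h1 := Nat.ceil_lt_add_one (a := M ^ 2) (by positivity)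
    nlinarith
  have hk1' : 1 ≤ k := by
    have : (1 : ℝ) ≤ k := by nlinarith
    exact_mod_cast this
  have hkD : 4 * (k : ℝ) ≤ (D : ℝ) ^ 2 * M := by
    have h1 : M ≤ D := by
      have h2 : (M / A) ^ 2 / 2 ≤ Real.exp (M / A) := by
        have := Real.quadratic_le_exp_of_nonneg (x := M / A) (by positivity)
        have h3 : 0 ≤ M / A := by positivity
        nlinarith only [this, h3]
      have h4 : 2 * M ≤ (M / A) ^ 2 / 2 := by
        have h5 : (M / A) ^ 2 / 2 = M * (M / (2 * A ^ 2)) := by field_simp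
        rw [h5, mul_comm]
        apply mul_le_mul_of_nonneg_left _ hM0.le
        rw [le_div_iff₀ (by positivity)]
        linarith
      linarith
    have h6 : M ^ 2 ≤ (D : ℝ) ^ 2 := pow_le_pow_left₀ hM0.le h1 2
    have h7 : M ^ 2 * M ≤ (D : ℝ) ^ 2 * M := mul_le_mul_of_nonneg_right h6 hM0.le
    nlinarith only [hk2, h7, hM8]
  obtain ⟨g1, g2⟩ := key q χ β hz D hD4 hqD hβD k M (by linarith) hDM hk1 hkD
  set E : ℝ := w * Real.log D + (D : ℝ) ^ (-c) with hE
  have hE2 : E ≤ w * M + Real.exp (-(c / (2 * A) * M)) := by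
    have h1 : (D : ℝ) ^ (-c) ≤ Real.exp (-(c / (2 * A) * M)) := by
      rw [Real.rpow_def_of_pos (by linarith)]
      apply Real.exp_le_exp.2
      have h2 : c / (2 * A) * M = c * (M / (2 * A)) := by ring
      rw [h2]
      nlinarith only [hDl, hc]
    have h3 : w * Real.log D ≤ w * M := mul_le_mul_of_nonneg_left hlDM hw0.le
    linarith
  have r1 : (SKP (1 : DirichletCharacter ℂ 1) k M 0).re ≤ 1 + C * E := by
    have h1 := (Complex.re_le_norm (SKP (1 : DirichletCharacter ℂ 1) k M 0 - 1)).trans g1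
    rw [Complex.sub_re, Complex.one_re] at h1
    linarith
  set W : ℝ := ((k / M) / (k / M + w)) ^ (k + 1) with hW
  have r2 : (SKP χ k M 0).re ≤ -W + C * E := by
    have h1 := (Complex.re_le_norm (SKP χ k M 0 + (W : ℂ))).trans g2
    rw [Complex.add_re, Complex.ofReal_re] at h1
    linarith
  have r3 : 1 - 2 * (w * M) ≤ W := W_lo hk1' hM0 hw0.le
  have r4 := skp_pos χ (by linarith : 2 ≤ M) hk1
  have r5 : ∑ p ∈ PM M, (1 + (χ (p : ZMod q)).re) * (Real.log p / p) ≤
      Real.exp 5 * ∑ p ∈ PM M, (1 + (χ (p : ZMod q)).re) * (Real.log p * wK k M p) := by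
    rw [mul_sum]
    refine sum_le_sum fun p hp => ?_
    obtain ⟨hp1, hp2⟩ := mem_PM.1 hp
    have hp0 : (0 : ℝ) < p := by exact_mod_cast hp1.pos
    have h1 := wK_low (by linarith : 4 ≤ M) hk1 hk2 hp1.pos hp2
    have h2 := (abs_le.1 (re_abs χ p)).1
    have h3 : 0 ≤ Real.log p := Real.log_natCast_nonneg p
    have h4 : 1 / (p : ℝ) ≤ Real.exp 5 * wK k M p := by
      have h5 : Real.exp 5 * (Real.exp (-5) * (1 / p)) = 1 / p := by
        rw [← mul_assoc, ← Real.exp_add]
        norm_num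
      rw [← h5]
      exact mul_le_mul_of_nonneg_left h1 (Real.exp_pos _).le
    calc (1 + (χ (p : ZMod q)).re) * (Real.log p / p) =
          (1 + (χ (p : ZMod q)).re) * (Real.log p * (1 / p)) := by ring
      _ ≤ (1 + (χ (p : ZMod q)).re) * (Real.log p * (Real.exp 5 * wK k M p)) := by
          apply mul_le_mul_of_nonneg_left _ (by linarith)
          exact mul_le_mul_of_nonneg_left h4 h3
      _ = _ := by ring
  have r6 : Real.exp 5 * ∑ p ∈ PM M, (1 + (χ (p : ZMod q)).re) * (Real.log p * wK k M p) ≤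
      Real.exp 5 * (2 * (w * M) + 2 * (C * E)) :=
    mul_le_mul_of_nonneg_left (by linarith) (Real.exp_pos _).le
  have h7 : 0 ≤ w * M := by positivity
  have r7 : Real.exp 5 * (2 * (w * M) + 2 * (C * E)) ≤
      Real.exp 5 * (2 + 2 * C) * (w * M + Real.exp (-(c / (2 * A) * M))) := by
    have h1 : C * E ≤ C * (w * M + Real.exp (-(c / (2 * A) * M))) :=
      mul_le_mul_of_nonneg_left hE2 (by linarith)
    have h2 : 2 * (w * M) + 2 * (C * E) ≤
        (2 + 2 * C) * (w * M + Real.exp (-(c / (2 * A) * M))) := by nlinarith only [h1, h7, he0, hC]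
    rw [mul_assoc]
    exact mul_le_mul_of_nonneg_left h2 (Real.exp_pos _).le
  have h8 : 0 ≤ 21 / c₀ * (w * M + Real.exp (-(c / (2 * A) * M))) := by positivity
  calc _ ≤ Real.exp 5 * (2 + 2 * C) * (w * M + Real.exp (-(c / (2 * A) * M))) :=
        r5.trans (r6.trans r7)
    _ ≤ _ := by rw [add_mul]; linarith

end Pool.Agent.T12
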