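import Pool.Agent.Lib_helper82.T12.B
import Pool.Agent.Lib_helper82.T12.P2
import Pool.Agent.Lib_helper82.T12.H1
import Pool.Agent.Lib_helper84.T12.Cs
import Pool.Agent.Lib_helper97.T12.P3P6
import Pool.Agent.Lib_helper97.T12.P4
import Pool.Agent.Lib_helper14.T12.C6C7C8
import Pool.Agent.Lib_helper14.T12.P5

/-!
# T12: everything from the laws
-/

set_option autoImplicit false

namespace Pool.Agent.T12

theorem p0 : P0 := P0_pr
theorem pu : PU := PU_pr
theorem p1 : P1 := P1_pr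
theorem p6 : P6 := P6_pr
theorem p3 : P3 := P3_pr P2_pr p6
theorem p4 : P4 := P4_pr
theorem p5 : P5 := P5_pr
theorem c6 : C6 := C6_pr p0 p4 p5

variable {p : PF}

theorem Laws.c1s (h : Laws p) : C1s p := C1s_pr p h.l0 h.lm h.lhs p0
theorem Laws.c1 (h : Laws p) : C1 p := C1_pr p h.l0 h.lm h.lhi p0
theorem Laws.c2 (h : Laws p) : C2 p := C2_pr p h.llo p1
theorem Laws.c3s (h : Laws p) : C3s p := C3s_pr p h.l0 h.lm h.lhs p0 pu p3 p6
theorem Laws.c3 (h : Laws p) : C3 p := C3_pr p h.l0 h.lm h.lhi p0 pu p3 p6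
theorem Laws.c4 (h : Laws p) : C4 p := C4_pr p h.llo p3 p6
theorem Laws.c5s (h : Laws p) : C5s p := C5s_pr p h.l0 h.lm h.lhs p0 pu h.c1s
theorem Laws.c7 (h : Laws p) : C7 p := C7_pr p h.mono h.c1 h.c2 c6
theorem Laws.c8 (h : Laws p) : C8 p := C8_pr p h.mono h.c3 h.c4 c6

end Pool.Agent.T12
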