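import Pool.Agent.Lib_helper41.TK.Br
import Pool.Agent.Lib_helper45.TK.FK
import Pool.Agent.Lib_helper68.TKS.KS
import Pool.Agent.Lib_helper15.TEM.ShD

/-! T12: the inputs of the laws (parts I, II, III, IV). -/

set_option autoImplicit false

namespace Pool.Agent.T12

theorem three : Three := fun i _ _ hε hδ => TU.ub_pow i hε hδ

theorem th : TH := fun _ hε => TK.twist_half hε

theorem sp : SP := sp_of TEM.part_one

theorem km : KM := TKS.km

theorem hp : HP := hp_of TEM.four_plus three

end Pool.Agent.T12
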