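import Pool.Agent.Lib_helper82.T12.Law

/-!
# T12: half of the normal law in the class `χ(-N) = 1` with a very exceptional zero
-/

set_option autoImplicit false

namespace Pool.Agent.T12

open MeasureTheory ProbabilityTheory Filter Topology
open Pool.Agent.LK (PQ)
open Pool.Agent.LEV (S2 IsNew co Lh HE la Pf nr)

/-- the lower half of the forms with a large central value, reflected -/
def LN : Prop := ∀ V e ε : ℝ, 0 < e → 0 < ε → ∃ N₀ : ℕ, ∀ (N : ℕ) [Fact N.Prime], N₀ ≤ N →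
  (N : ℝ) / 24 * (1 / 2 * (gaussianReal 0 1).real (Set.Iio V) - ε) ≤
    ({f : S2 N | (IsNew f ∧ co f N = 1) ∧ (Real.exp (-Real.log (Real.log N) / 2 + Pf f -
      e * Real.sqrt (Real.log (Real.log N))) ≤ ‖Lh f‖ ∧
      Pf f < V * Real.sqrt (Real.log (Real.log N)))}.ncard : ℝ)

/-- the sum over the primes is `o(log log N)` for nearly all forms -/
theorem pf_small {c ε : ℝ} (hc0 : 0 < c) (hε : 0 < ε) : ∃ N₀ : ℕ, ∀ (N : ℕ) [Fact N.Prime],
    N₀ ≤ N → ({f : S2 N | (IsNew f ∧ co f N = 1) ∧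
      c * Real.log (Real.log N) ≤ |Pf f|}.ncard : ℝ) ≤ ε * N := by
  classical
  obtain ⟨C, hC, hnat⟩ := LEV.nat_of_harm
  obtain ⟨C1, hC1, hfin⟩ := LEV.new_fin
  obtain ⟨C2, N2, hmom⟩ := LEV.mom_p
  set C3 : ℝ := max C2 1 with hC3
  have hC30 : 0 < C3 := lt_of_lt_of_le one_pos (le_max_right _ _)
  have hll : Tendsto (fun N : ℕ => Real.log (Real.log (N : ℝ))) atTop atTop :=
    Real.tendsto_log_atTop.comp (Real.tendsto_log_atTop.comp tendsto_natCast_atTop_atTop)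
  obtain ⟨N4, hN4⟩ := Filter.eventually_atTop.mp
    (hll.eventually_ge_atTop (1 + C3 * C ^ 2 / (c ^ 2 * ε ^ 2)))
  refine ⟨max N2 N4, ?_⟩
  intro N _ hN
  have hN2 : N2 ≤ N := (le_max_left _ _).trans hN
  have hL := hN4 N ((le_max_right _ _).trans hN)
  set L2 := Real.log (Real.log (N : ℝ)) with hL2
  have hp2 : 0 ≤ C3 * C ^ 2 / (c ^ 2 * ε ^ 2) := by positivity
  have hL1 : 1 ≤ L2 := by linarith
  have hL0 : 0 < L2 := by linarith
  set B2 : Set (S2 N) := {f : S2 N | (IsNew f ∧ co f N = 1) ∧ c * L2 ≤ |Pf f|} with hB2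
  have hB2fin : B2.Finite := (hfin N).1.subset (fun f hf => hf.1.1)
  have hT : ∀ f ∈ hB2fin.toFinset, f ∈ B2 := fun f hf => hB2fin.mem_toFinset.mp hf
  have h1 := hmom N hN2 (ι := hB2fin.toFinset) (fun i => (i : S2 N)) Subtype.val_injective
    (fun i => (hT i i.2).1.1)
  have h2 := hnat N (ι := hB2fin.toFinset) (fun i => (i : S2 N)) Subtype.val_injective
    (fun i => (hT i i.2).1.1) Finset.univ
  rw [Finset.card_univ, Fintype.card_coe] at h2
  rw [Set.ncard_eq_toFinset_card _ hB2fin]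
  have hnr : ∀ i : hB2fin.toFinset, 0 < nr (i : S2 N) :=
    fun i => LEV.nr_pos (LEV.new_ne_zero (hT i i.2).1.1)
  have h3 : (c * L2) ^ 2 * ∑ i : hB2fin.toFinset, 1 / nr (i : S2 N) ≤ C3 * L2 := by
    calc (c * L2) ^ 2 * ∑ i : hB2fin.toFinset, 1 / nr (i : S2 N)
        = ∑ i : hB2fin.toFinset, 1 / nr (i : S2 N) * (c * L2) ^ 2 := by
          rw [Finset.mul_sum]
          exact Finset.sum_congr rfl (fun i _ => mul_comm _ _)
      _ ≤ ∑ i : hB2fin.toFinset, 1 / nr (i : S2 N) * Pf (i : S2 N) ^ 2 := by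
          apply Finset.sum_le_sum
          intro i _
          apply mul_le_mul_of_nonneg_left _ (by have := hnr i; positivity)
          rw [← sq_abs (Pf (i : S2 N))]
          exact pow_le_pow_left₀ (by positivity) (hT i i.2).2 2
      _ ≤ C2 * L2 := h1
      _ ≤ C3 * L2 := mul_le_mul_of_nonneg_right (le_max_left _ _) hL0.le
  have h4 : ∑ i : hB2fin.toFinset, 1 / nr (i : S2 N) ≤ (ε / C) ^ 2 := by
    have h5 : ∑ i : hB2fin.toFinset, 1 / nr (i : S2 N) ≤ C3 * L2 / (c * L2) ^ 2 := by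
      rw [le_div_iff₀ (by positivity)]
      linarith
    refine h5.trans ?_
    have h6 : C3 * C ^ 2 / (c ^ 2 * ε ^ 2) ≤ L2 := by linarith
    rw [div_le_iff₀ (by positivity)] at h6
    rw [div_pow, div_le_div_iff₀ (by positivity) (by positivity)]
    calc C3 * L2 * C ^ 2 = (C3 * C ^ 2) * L2 := by ring
      _ ≤ (L2 * (c ^ 2 * ε ^ 2)) * L2 := mul_le_mul_of_nonneg_right h6 hL0.le
      _ = ε ^ 2 * (c * L2) ^ 2 := by ring
  have h7 : Real.sqrt (∑ i : hB2fin.toFinset, 1 / nr (i : S2 N)) ≤ ε / C := by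
    rw [Real.sqrt_le_left (by positivity)]
    exact h4
  calc (hB2fin.toFinset.card : ℝ)
      ≤ C * N * Real.sqrt (∑ i : hB2fin.toFinset, 1 / nr (i : S2 N)) := h2
    _ ≤ C * N * (ε / C) := mul_le_mul_of_nonneg_left h7 (by positivity)
    _ = ε * N := by field_simp

/-- disjoint properties -/
theorem sh_add {N : ℕ} [Fact N.Prime] {P Q R : S2 N → Prop} (h : ∀ f ∈ HE N, P f → ¬ Q f)
    (h1 : ∀ f ∈ HE N, P f → R f) (h2 : ∀ f ∈ HE N, Q f → R f) : sh N P + sh N Q ≤ sh N R := by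
  unfold sh
  rw [← add_div]
  apply div_le_div_of_nonneg_right _ (Nat.cast_nonneg _)
  rw [← Nat.cast_add, Nat.cast_le, ← Set.ncard_union_eq _
    ((LEV.HE_fin N).subset fun f hf => hf.1) ((LEV.HE_fin N).subset fun f hf => hf.1)]
  · apply Set.ncard_le_ncard _ ((LEV.HE_fin N).subset fun f hf => hf.1)
    rintro f (⟨hf, h3⟩ | ⟨hf, h3⟩)
    · exact ⟨hf, h1 f hf h3⟩
    · exact ⟨hf, h2 f hf h3⟩
  · rw [Set.disjoint_left]
    rintro f ⟨hf, h3⟩ ⟨-, h4⟩
    exact h f hf h3 h4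

theorem gauss_io {V ε : ℝ} (hε : 0 < ε) : ∃ κ : ℝ, 0 < κ ∧
    1 - (gaussianReal 0 1).real (Set.Ici V) - ε ≤
      (gaussianReal 0 1).real (Set.Iio (V - κ)) := by
  obtain ⟨κ, hκ, h⟩ := LEV.TOG_gauss V hε
  refine ⟨κ, hκ, ?_⟩
  have h1 := h (V - κ) le_rfl
  have h2 : (gaussianReal 0 1).real (Set.Iio (V - κ)) =
      1 - (gaussianReal 0 1).real (Set.Ici (V - κ)) := by
    rw [← Set.compl_Ici, probReal_compl_eq_one_sub measurableSet_Ici]
  rw [h2]
  linarith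

/-- half of the normal law, in the class `χ(-N) = 1` -/
theorem ks_plus (h1 : TH) (h2 : SP) (h3 : LN) : ∀ ε : ℝ, 0 < ε → ∃ κ : ℝ, 0 < κ ∧
    ∀ V δ : ℝ, 0 < δ → ∃ N₀ : ℕ, ∀ (N : ℕ) [Fact N.Prime], N₀ ≤ N →
    ∀ (q : ℕ) [NeZero q] (χ : DirichletCharacter ℂ q) (β : ℝ), XZ κ N χ β →
    χ (-(N : ZMod q)) = 1 → 1 - β ≤ Real.log N ^ (-1 - δ) →
      |sh N (fun f => Real.log N ^ (-(1 / 2) : ℝ) *
        Real.exp (V * Real.sqrt (Real.log (Real.log N))) ≤ (Lh f).re) -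
        1 / 2 * (gaussianReal 0 1).real (Set.Ici V)| ≤ ε := by
  intro ε hε
  obtain ⟨κ, hκ, h4⟩ := rA_lls h1 h2 (ε / 8) (by positivity)
  refine ⟨κ, hκ, fun V δ hδ => ?_⟩
  obtain ⟨N₁, h4⟩ := h4 (1 / 2 + δ / 2) (δ / 2) (by linarith) (by linarith)
  obtain ⟨N₂, h5⟩ := ks_half V hε
  obtain ⟨k, hk, h6⟩ := gauss_io (V := V) (show (0 : ℝ) < ε / 4 by positivity)
  set w : ℝ := 1 / 2 * (gaussianReal 0 1).real (Set.Iio (V - k)) with hw
  have hg1 : (gaussianReal 0 1).real (Set.Iio (V - k)) ≤ 1 := measureReal_le_one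
  obtain ⟨e₁, N₃, he₁, h7⟩ := sh_low (w := w) (by linarith) (show (0 : ℝ) < ε / 8 by positivity)
  obtain ⟨e₂, N₄, he₂, h8⟩ := sh_up (show (0 : ℝ) < ε / 8 by positivity)
  set e : ℝ := min k e₂ with he
  have he0 : 0 < e := lt_min hk he₂
  obtain ⟨N₅, h9⟩ := h3 (V - k) e e₁ he0 he₁
  obtain ⟨N₆, h10⟩ := LEV.nat_main he0
  obtain ⟨N₇, h11⟩ := pf_small (show (0 : ℝ) < δ / 8 by positivity) he₂
  obtain ⟨N₈, h12⟩ := LSP.thr_low V (show 1 / 2 < 1 / 2 + δ / 2 by linarith)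
  have hll : Tendsto (fun N : ℕ => Real.log (Real.log (N : ℝ))) atTop atTop :=
    Real.tendsto_log_atTop.comp (Real.tendsto_log_atTop.comp tendsto_natCast_atTop_atTop)
  obtain ⟨N₉, h13⟩ := Filter.eventually_atTop.mp (hll.eventually_ge_atTop (1 + (8 * e / δ) ^ 2))
  refine ⟨N₁ + N₂ + N₃ + N₄ + N₅ + N₆ + N₇ + N₈ + N₉ + 3, fun N _ hN q _ χ β hx hs hb => ?_⟩
  have hN3 : (3 : ℝ) ≤ N := by exact_mod_cast (by omega : 3 ≤ N)
  have hlog : 0 < Real.log N := Real.log_pos (by linarith)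
  have a4 := h4 N (by omega) q χ β hx hs (by
    have : -(1 / 2 + δ / 2 + 1 / 2) - δ / 2 = -1 - δ := by ring
    rw [this]
    exact hb)
  have a5 := h5 N (by omega)
  have a9 := h7 N (by omega) _ (h9 N (by omega))
  have a10 : sh N (fun f => Real.exp (-Real.log (Real.log N) / 2 + Pf f +
      e * Real.sqrt (Real.log (Real.log N))) < ‖Lh f‖) ≤ ε / 8 := by
    apply h8 N (by omega)
    have h14 := h10 N (by omega)
    have h15 : {f : S2 N | (IsNew f ∧ co f N = 1) ∧ Real.exp (-Real.log (Real.log N) / 2 + Pf f +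
        e * Real.sqrt (Real.log (Real.log N))) < ‖Lh f‖} =
        {f : S2 N | IsNew f ∧ co f N = 1 ∧ Real.exp (-Real.log (Real.log N) / 2 + Pf f +
        e * Real.sqrt (Real.log (Real.log N))) < ‖Lh f‖} := by
      ext f
      simp only [Set.mem_ofPred_eq, and_assoc]
    rw [h15]
    refine h14.trans ?_
    exact mul_le_mul_of_nonneg_right (min_le_right _ _) (Nat.cast_nonneg _)
  have a11 := h8 N (by omega) _ (h11 N (by omega))
  have a12 := h12 N (by omega)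
  have a13 := h13 N (by omega)
  set L : ℝ := Real.log (Real.log N) with hL
  have hL1 : 1 ≤ L := by
    have : 0 ≤ (8 * e / δ) ^ 2 := sq_nonneg _
    linarith
  have hL0 : 0 < L := by linarith
  have hsq : Real.sqrt L * Real.sqrt L = L := Real.mul_self_sqrt hL0.le
  have hs0 : 0 < Real.sqrt L := Real.sqrt_pos.2 hL0
  have heL : e * Real.sqrt L ≤ δ / 8 * L := by
    have h14 : 8 * e / δ ≤ Real.sqrt L := by
      apply Real.le_sqrt_of_sq_le
      linarith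
    rw [div_le_iff₀ hδ] at h14
    calc e * Real.sqrt L ≤ (Real.sqrt L * δ / 8) * Real.sqrt L :=
          mul_le_mul_of_nonneg_right (by linarith) hs0.le
      _ = δ / 8 * (Real.sqrt L * Real.sqrt L) := by ring
      _ = δ / 8 * L := by rw [hsq]
  rw [sh_thr (by omega)] at a5 ⊢
  rw [← hL] at a5 ⊢
  -- the forms in the reflected half are above the threshold `A` and below the threshold `V`
  have key : sh N (fun f => Real.exp (-L / 2 + Pf f - e * Real.sqrt L) ≤ ‖Lh f‖ ∧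
      Pf f < (V - k) * Real.sqrt L) ≤
      sh N (fun f => Real.log N ^ (-(1 / 2 + δ / 2)) < ‖Lh f‖ ∧
        ¬ Real.exp (-L / 2 + V * Real.sqrt L) ≤ ‖Lh f‖) +
      (sh N (fun f => Real.exp (-L / 2 + Pf f + e * Real.sqrt L) < ‖Lh f‖) +
        sh N (fun f => δ / 8 * L ≤ |Pf f|)) := by
    refine le_trans (sh_mono fun f hf h14 => ?_) (le_trans (sh_or _ _)
      (add_le_add le_rfl (sh_or _ _)))
    obtain ⟨h15, h16⟩ := h14
    by_cases h17 : Real.exp (-L / 2 + Pf f + e * Real.sqrt L) < ‖Lh f‖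
    · exact Or.inr (Or.inl h17)
    by_cases h18 : δ / 8 * L ≤ |Pf f|
    · exact Or.inr (Or.inr h18)
    left
    push Not at h17 h18
    constructor
    · refine lt_of_lt_of_le ?_ h15
      rw [Real.rpow_def_of_pos hlog, Real.exp_lt_exp, ← hL]
      have h19 := (abs_lt.1 h18).1
      have h20 : 0 < δ * L := mul_pos hδ hL0
      linarith
    · rw [not_le]
      refine lt_of_le_of_lt h17 ?_
      rw [Real.exp_lt_exp]
      have h19 : e * Real.sqrt L ≤ k * Real.sqrt L :=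
        mul_le_mul_of_nonneg_right (min_le_left _ _) hs0.le
      linarith
  have hdis : sh N (fun f => Real.exp (-L / 2 + V * Real.sqrt L) ≤ ‖Lh f‖) +
      sh N (fun f => Real.log N ^ (-(1 / 2 + δ / 2)) < ‖Lh f‖ ∧
        ¬ Real.exp (-L / 2 + V * Real.sqrt L) ≤ ‖Lh f‖) ≤
      sh N (fun f => Real.log N ^ (-(1 / 2 + δ / 2)) < ‖Lh f‖) := by
    apply sh_add
    · intro f _ h14 h15
      exact h15.2 h14
    · intro f _ h14
      refine lt_of_lt_of_le ?_ h14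
      rw [exp_thr (by omega), ← hL] at a12
      exact a12
    · intro f _ h14
      exact h14.1
  rw [← rA_norm (by omega)] at hdis
  rw [abs_le] at a4 ⊢
  constructor
  · linarith
  · linarith [a4.2]

/-- the lower half, reflected, in terms of the central values only -/
def LW : Prop := ∀ V A : ℝ, 1 / 2 < A → ∀ ε : ℝ, 0 < ε → ∃ N₀ : ℕ, ∀ (N : ℕ) [Fact N.Prime],
  N₀ ≤ N → (N : ℝ) / 24 * (1 / 2 * (1 - (gaussianReal 0 1).real (Set.Ici V)) - ε) ≤
    ({f : S2 N | (IsNew f ∧ co f N = 1) ∧ Real.log N ^ (-A) < ‖Lh f‖ ∧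
      ‖Lh f‖ < Real.exp (-Real.log (Real.log N) / 2 +
        V * Real.sqrt (Real.log (Real.log N)))}.ncard : ℝ)

/-- half of the normal law, in the class `χ(-N) = 1` -/
theorem ks_plus_of (h1 : TH) (h2 : SP) (h3 : LW) : ∀ ε : ℝ, 0 < ε → ∃ κ : ℝ, 0 < κ ∧
    ∀ V δ : ℝ, 0 < δ → ∃ N₀ : ℕ, ∀ (N : ℕ) [Fact N.Prime], N₀ ≤ N →
    ∀ (q : ℕ) [NeZero q] (χ : DirichletCharacter ℂ q) (β : ℝ), XZ κ N χ β →
    χ (-(N : ZMod q)) = 1 → 1 - β ≤ Real.log N ^ (-1 - δ) →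
      |sh N (fun f => Real.log N ^ (-(1 / 2) : ℝ) *
        Real.exp (V * Real.sqrt (Real.log (Real.log N))) ≤ (Lh f).re) -
        1 / 2 * (gaussianReal 0 1).real (Set.Ici V)| ≤ ε := by
  intro ε hε
  obtain ⟨κ, hκ, h4⟩ := rA_lls h1 h2 (ε / 2) (by positivity)
  refine ⟨κ, hκ, fun V δ hδ => ?_⟩
  obtain ⟨N₁, h4⟩ := h4 (1 / 2 + δ / 2) (δ / 2) (by linarith) (by linarith)
  obtain ⟨N₂, h5⟩ := ks_half V hε
  have hg0 : 0 ≤ (gaussianReal 0 1).real (Set.Ici V) := measureReal_nonneg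
  obtain ⟨e₁, N₃, he₁, h7⟩ := sh_low (w := 1 / 2 * (1 - (gaussianReal 0 1).real (Set.Ici V)))
    (by linarith) (show (0 : ℝ) < ε / 2 by positivity)
  obtain ⟨N₄, h8⟩ := h3 V (1 / 2 + δ / 2) (by linarith) e₁ he₁
  obtain ⟨N₅, h12⟩ := LSP.thr_low V (show 1 / 2 < 1 / 2 + δ / 2 by linarith)
  refine ⟨N₁ + N₂ + N₃ + N₄ + N₅ + 3, fun N _ hN q _ χ β hx hs hb => ?_⟩
  have a4 := h4 N (by omega) q χ β hx hs (by
    have : -(1 / 2 + δ / 2 + 1 / 2) - δ / 2 = -1 - δ := by ring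
    rw [this]
    exact hb)
  have a5 := h5 N (by omega)
  have a7 := h7 N (by omega) _ (h8 N (by omega))
  have a12 := h12 N (by omega)
  rw [sh_thr (by omega)] at a5 ⊢
  have hdis : sh N (fun f => Real.exp (-Real.log (Real.log N) / 2 +
        V * Real.sqrt (Real.log (Real.log N))) ≤ ‖Lh f‖) +
      sh N (fun f => Real.log N ^ (-(1 / 2 + δ / 2)) < ‖Lh f‖ ∧
        ‖Lh f‖ < Real.exp (-Real.log (Real.log N) / 2 +
          V * Real.sqrt (Real.log (Real.log N)))) ≤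
      sh N (fun f => Real.log N ^ (-(1 / 2 + δ / 2)) < ‖Lh f‖) := by
    apply sh_add
    · intro f _ h14 h15
      linarith [h15.2]
    · intro f _ h14
      refine lt_of_lt_of_le ?_ h14
      rw [exp_thr (by omega)] at a12
      exact a12
    · intro f _ h14
      exact h14.1
  rw [← rA_norm (by omega)] at hdis
  rw [abs_le] at a4 ⊢
  constructor
  · linarith
  · linarith [a4.2]

end Pool.Agent.T12
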