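import Pool.Agent.Lib_helper82.T12.Inputs
import Pool.Agent.Lib_helper82.T12.KSP
import Pool.Agent.Lib_helper68.KSM.LW

/-! T12: the reflected lower half -/

set_option autoImplicit false

namespace Pool.Agent.T12

theorem lw : LW := fun V A hA ε hε => KSL.lower_half V A hA ε hε

end Pool.Agent.T12
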