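import Pool.Agent.Lib_helper82.T12.Defs2

/-!
# T12: the lower limit over the primes
-/

set_option autoImplicit false

namespace Pool.Agent.T12

open Finset Filter Topology

/-- the function, with the value `0` at integers which are not primes -/
noncomputable def tot (f : (N : ℕ) → [Fact N.Prime] → ℝ) (N : ℕ) : ℝ :=
  if h : N.Prime then @f N ⟨h⟩ else 0

/-- the filter `N → ∞` through the primes -/
def primesTop : Filter ℕ := atTop ⊓ 𝓟 {N : ℕ | N.Prime}

theorem primesTop_eventually {P : ℕ → Prop} :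
    (∀ᶠ N in primesTop, P N) ↔ ∃ N₀ : ℕ, ∀ N : ℕ, N₀ ≤ N → N.Prime → P N := by
  unfold primesTop
  rw [eventually_inf_principal, eventually_atTop]
  rfl

theorem primesTop_frequently {P : ℕ → Prop} :
    (∃ᶠ N in primesTop, P N) ↔ ∀ N₀ : ℕ, ∃ N : ℕ, N₀ ≤ N ∧ N.Prime ∧ P N := by
  unfold Filter.Frequently
  rw [primesTop_eventually]
  push Not
  rfl

instance : primesTop.NeBot := by
  unfold primesTop
  rw [← frequently_mem_iff_neBot, frequently_atTop]
  intro a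
  obtain ⟨p, hp, h⟩ := Nat.exists_infinite_primes a
  exact ⟨p, hp, h⟩

/-- `liminf` over the primes -/
noncomputable def lim (f : (N : ℕ) → [Fact N.Prime] → ℝ) : ℝ := liminf (tot f) primesTop

variable {f : (N : ℕ) → [Fact N.Prime] → ℝ}

theorem tot_prime (N : ℕ) (h : N.Prime) : tot f N = @f N ⟨h⟩ := by
  unfold tot
  rw [dif_pos h]

theorem bdd_below (h0 : ∀ (N : ℕ) [Fact N.Prime], 0 ≤ f N) :
    primesTop.IsBoundedUnder (· ≥ ·) (tot f) := by
  refine ⟨0, ?_⟩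
  rw [eventually_map]
  exact Eventually.of_forall fun N => by
    unfold tot
    split_ifs with h
    · exact @h0 N ⟨h⟩
    · exact le_refl _

theorem bdd_above (h1 : ∀ (N : ℕ) [Fact N.Prime], f N ≤ 1) :
    primesTop.IsBoundedUnder (· ≤ ·) (tot f) := by
  refine ⟨1, ?_⟩
  rw [eventually_map]
  exact Eventually.of_forall fun N => by
    unfold tot
    split_ifs with h
    · exact @h1 N ⟨h⟩
    · exact zero_le_one

theorem le_lim (h1 : ∀ (N : ℕ) [Fact N.Prime], f N ≤ 1) {x : ℝ}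
    (h : ∃ N₀ : ℕ, ∀ (N : ℕ) [Fact N.Prime], N₀ ≤ N → x ≤ f N) : x ≤ lim f := by
  unfold lim
  apply le_liminf_of_le (bdd_above h1).isCoboundedUnder_ge
  rw [primesTop_eventually]
  obtain ⟨N₀, h⟩ := h
  refine ⟨N₀, fun N hN hp => ?_⟩
  rw [tot_prime N hp]
  exact @h N ⟨hp⟩ hN

theorem lim_le (h0 : ∀ (N : ℕ) [Fact N.Prime], 0 ≤ f N) {x : ℝ}
    (h : ∀ N₀ : ℕ, ∃ (N : ℕ) (hp : N.Prime), N₀ ≤ N ∧ @f N ⟨hp⟩ ≤ x) : lim f ≤ x := by
  unfold lim
  apply liminf_le_of_frequently_le _ (bdd_below h0)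
  rw [primesTop_frequently]
  intro N₀
  obtain ⟨N, hp, hN, hx⟩ := h N₀
  exact ⟨N, hN, hp, by rwa [tot_prime N hp]⟩

theorem lt_lim_iff (h0 : ∀ (N : ℕ) [Fact N.Prime], 0 ≤ f N)
    (h1 : ∀ (N : ℕ) [Fact N.Prime], f N ≤ 1) {x : ℝ} : x < lim f ↔
    ∃ c : ℝ, 0 < c ∧ ∃ N₀ : ℕ, ∀ (N : ℕ) [Fact N.Prime], N₀ ≤ N → x + c ≤ f N := by
  constructor
  · intro h
    obtain ⟨y, hy1, hy2⟩ := exists_between h
    have h2 := eventually_lt_of_lt_liminf (u := tot f) hy2 (bdd_below h0)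
    rw [primesTop_eventually] at h2
    obtain ⟨N₀, h2⟩ := h2
    refine ⟨y - x, by linarith, N₀, fun N hp hN => ?_⟩
    have h3 := h2 N hN hp.out
    rw [tot_prime N hp.out] at h3
    have : x + (y - x) = y := by ring
    rw [this]
    exact h3.le
  · rintro ⟨c, hc, h⟩
    have := le_lim h1 h
    linarith

end Pool.Agent.T12
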