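import Pool.Agent.Lib_helper82.T12.Inputs
import Pool.Agent.Lib_helper82.T12.Fin
import Pool.Agent.Lib_helper82.T12.Dens
import Pool.Agent.Lib_helper82.CN.NL

/-!
# T12: the theorems for the proportion of large central values
-/

set_option autoImplicit false

namespace Pool.Agent.T12

open MeasureTheory ProbabilityTheory
open Pool.Agent.LEV (S2 IsNew co Lh HE)

theorem rA_laws : Laws rA := laws th sp km hp

/-- the Keating-Snaith law for `χ(-N) = -1` -/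
theorem ks_law : ∀ ε : ℝ, 0 < ε → ∃ κ : ℝ, 0 < κ ∧ ∀ V : ℝ, ∃ N₀ : ℕ,
    ∀ (N : ℕ) [Fact N.Prime], N₀ ≤ N →
    ∀ (q : ℕ) [NeZero q] (χ : DirichletCharacter ℂ q) (β : ℝ), XZ κ N χ β →
    χ (-(N : ZMod q)) = -1 →
    |sh N (fun f => Real.log N ^ (-(1 / 2) : ℝ) *
      Real.exp (V * Real.sqrt (Real.log (Real.log N))) ≤ (Lh f).re) -
        (gaussianReal 0 1).real (Set.Ici V)| ≤ ε := by
  intro ε hε
  obtain ⟨κ, hκ, h⟩ := ks_low km ε hε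
  refine ⟨κ, hκ, fun V => ?_⟩
  obtain ⟨N₁, h1⟩ := h V
  obtain ⟨N₂, h2⟩ := ks_up V hε
  refine ⟨N₁ + N₂, fun N _ hN q _ χ β hx hs => ?_⟩
  have h3 := h1 N (by omega) q χ β hx hs
  have h4 := h2 N (by omega)
  rw [abs_le]
  constructor <;> linarith

/-- the lower limit -/
theorem main_lim :
    (∀ A : ℝ, A < 1 / 2 → lim (rA A) = 0) ∧
    (∀ A δ : ℝ, 1 / 2 < A → 0 < δ → ¬ ZB Any (A + 1 / 2 + δ) → lim (rA A) = 1 / 2) ∧
    (∃ c : ℝ, 0 < c ∧ ∀ A δ : ℝ, 1 / 2 < A → 0 < δ → ZB Any (A + 1 / 2 - δ) →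
      1 / 2 + c ≤ lim (rA A)) ∧
    ((∃ A : ℝ, 0 < A ∧ 1 / 2 < lim (rA A)) ↔ ∃ B, LB Any B) :=
  h1_main rA rA_nonneg rA_le_one rA_low rA_half rA_laws.c1s rA_laws.c2 rA_laws.c7

/-- Q1 and the class numbers -/
theorem main_cl : (∃ A : ℝ, 0 < A ∧ 1 / 2 < lim (rA A)) ↔ ∃ B, CN.ClR B := by
  rw [main_lim.2.2.2]
  simp only [CN.clR_iff]

/-- Q1 for almost all primes and the class numbers -/
theorem main_almost : (∃ A c : ℝ, 0 < A ∧ 0 < c ∧ AlmostAll (fun N => ∀ h : N.Prime,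
    1 / 2 + c ≤ @rA A N ⟨h⟩)) ↔ ∃ B, CN.ClI B := by
  have h := rA_laws.c8
  unfold C8 at h
  rw [h]
  simp only [CN.clI_iff]

end Pool.Agent.T12
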