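import Pool.Agent.Lib_helper82.T12.InputsW

/-! # T12: the Keating-Snaith laws -/

set_option autoImplicit false

namespace Pool.Agent.T12

open MeasureTheory ProbabilityTheory Filter Topology
open Pool.Agent.LK (PQ)
open Pool.Agent.LEV (S2 IsNew co Lh HE la)

/-- no exceptional zero: more than half of the law -/
theorem ks_free : ∀ κ : ℝ, 0 < κ → ∃ c : ℝ, 0 < c ∧ ∀ V ε : ℝ, 0 < ε →
    ∃ N₀ : ℕ, ∀ (N : ℕ) [Fact N.Prime], N₀ ≤ N →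
    (∀ (q : ℕ) [NeZero q] (χ : DirichletCharacter ℂ q) (β : ℝ), ¬ XZ κ N χ β) →
    (1 / 2 + c) * (gaussianReal 0 1).real (Set.Ici V) - ε ≤
      sh N (fun f => Real.log N ^ (-(1 / 2) : ℝ) *
        Real.exp (V * Real.sqrt (Real.log (Real.log N))) ≤ (Lh f).re) := by
  intro κ hκ
  obtain ⟨c, hc0, hc1, h⟩ := LSP.dist_free hκ hκ
  refine ⟨c, hc0, fun V ε hε => ?_⟩
  have hg0 : 0 ≤ (gaussianReal 0 1).real (Set.Ici V) := measureReal_nonneg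
  have hg1 : (gaussianReal 0 1).real (Set.Ici V) ≤ 1 := measureReal_le_one
  obtain ⟨e, N₁, he, h1⟩ := sh_low (w := (1 / 2 + c) * (gaussianReal 0 1).real (Set.Ici V))
    (by nlinarith only [hg0, hg1, hc1, hc0]) hε
  obtain ⟨N₂, h2⟩ := h V e he
  refine ⟨N₁ + N₂ + 3, fun N _ hN hf => ?_⟩
  rw [sh_thr (by omega)]
  exact h1 N (by omega) _ (h2 N (by omega) (free_of hf))

/-- half of the law -/
theorem ks_plus_law : ∀ ε : ℝ, 0 < ε → ∃ κ : ℝ, 0 < κ ∧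
    ∀ V δ : ℝ, 0 < δ → ∃ N₀ : ℕ, ∀ (N : ℕ) [Fact N.Prime], N₀ ≤ N →
    ∀ (q : ℕ) [NeZero q] (χ : DirichletCharacter ℂ q) (β : ℝ), XZ κ N χ β →
    χ (-(N : ZMod q)) = 1 → 1 - β ≤ Real.log N ^ (-1 - δ) →
      |sh N (fun f => Real.log N ^ (-(1 / 2) : ℝ) *
        Real.exp (V * Real.sqrt (Real.log (Real.log N))) ≤ (Lh f).re) -
        1 / 2 * (gaussianReal 0 1).real (Set.Ici V)| ≤ ε := ks_plus_of th sp lw

/-- the full law -/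
theorem ks_minus_law : ∀ ε : ℝ, 0 < ε → ∃ κ : ℝ, 0 < κ ∧
    ∀ V : ℝ, ∃ N₀ : ℕ, ∀ (N : ℕ) [Fact N.Prime], N₀ ≤ N →
    ∀ (q : ℕ) [NeZero q] (χ : DirichletCharacter ℂ q) (β : ℝ), XZ κ N χ β →
    χ (-(N : ZMod q)) = -1 →
      |sh N (fun f => Real.log N ^ (-(1 / 2) : ℝ) *
        Real.exp (V * Real.sqrt (Real.log (Real.log N))) ≤ (Lh f).re) -
        (gaussianReal 0 1).real (Set.Ici V)| ≤ ε := by
  intro ε hε
  obtain ⟨κ, hκ, h⟩ := ks_low km ε hε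
  refine ⟨κ, hκ, fun V => ?_⟩
  obtain ⟨N₁, h1⟩ := h V
  obtain ⟨N₂, h2⟩ := ks_up V hε
  refine ⟨N₁ + N₂, fun N _ hN q _ χ β hx hs => ?_⟩
  rw [abs_le]
  constructor
  · linarith [h1 N (by omega) q χ β hx hs]
  · linarith [h2 N (by omega)]

end Pool.Agent.T12
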